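import Mathlib

/-!
Project SDET, row M1: rewriting of products (monomial) * (minor) of the generic `m x m` matrix whose
entries are pairwise different variables `X (c (i, j))` of a polynomial ring in finitely many variables.
Main results: `mem_span_reduced`, `finrank_span_le`, `finrank_span_le'`.
-/

namespace Pool.Agent.Helper90.SD

open MvPolynomial Finset

section general

variable {K : Type*} [Field K] {m k : ℕ} {τ : Type*}

/-- the minor with rows `f` and columns `g` of the matrix `X (c (i, j))` -/
noncomputable def minor (K : Type*) [Field K] {m k : ℕ} {τ : Type*} (c : Fin m × Fin m → τ)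
    (f g : Fin k ↪o Fin m) : MvPolynomial τ K :=
  Matrix.det (Matrix.of fun s t => (X (c (f s, g t)) : MvPolynomial τ K))

lemma minor_swap (c : Fin m × Fin m → τ) (f g : Fin k ↪o Fin m) :
    minor K (c ∘ Prod.swap) g f = minor K c f g := by
  unfold minor
  rw [← Matrix.det_transpose]
  rfl

lemma strictMono_insert {f : Fin k → Fin m} (hf : StrictMono f) (s : Fin k) (i : Fin m)
    (h1 : ∀ t < s, f t < i) (h2 : i < f s) :
    StrictMono (Fin.insertNth s.castSucc (α := fun _ => Fin m) i f) := by
  intro a b hab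
  induction a using s.castSucc.succAboveCases with
  | x =>
    induction b using s.castSucc.succAboveCases with
    | x => exact absurd hab (lt_irrefl _)
    | p b =>
      rw [Fin.insertNth_apply_same, Fin.insertNth_apply_succAbove]
      rw [Fin.lt_succAbove_iff_le_castSucc] at hab
      exact lt_of_lt_of_le h2 (hf.monotone (by simpa using hab))
  | p a =>
    induction b using s.castSucc.succAboveCases with
    | x =>
      rw [Fin.insertNth_apply_same, Fin.insertNth_apply_succAbove]
      rw [Fin.succAbove_lt_iff_castSucc_lt] at hab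
      exact h1 a (by simpa using hab)
    | p b =>
      rw [Fin.insertNth_apply_succAbove, Fin.insertNth_apply_succAbove]
      exact hf ((Fin.succAbove_lt_succAbove_iff).1 hab)

/-- rows with one inserted -/
def ins (f : Fin k ↪o Fin m) (s : Fin k) (i : Fin m)
    (h1 : ∀ t < s, f t < i) (h2 : i < f s) : Fin (k + 1) ↪o Fin m :=
  OrderEmbedding.ofStrictMono _ (strictMono_insert f.strictMono s i h1 h2)

/-- remove the `r`-th element -/
def rem (R : Fin (k + 1) ↪o Fin m) (r : Fin (k + 1)) : Fin k ↪o Fin m :=
  (Fin.succAboveOrderEmb r).trans R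

@[simp] lemma rem_apply (R : Fin (k + 1) ↪o Fin m) (r : Fin (k + 1)) (q : Fin k) :
    rem R r q = R (r.succAbove q) := rfl

lemma rem_ins (f : Fin k ↪o Fin m) (s : Fin k) (i : Fin m)
    (h1 : ∀ t < s, f t < i) (h2 : i < f s) : rem (ins f s i h1 h2) s.castSucc = f := by
  ext q
  simp [rem, ins]

lemma ins_self (f : Fin k ↪o Fin m) (s : Fin k) (i : Fin m)
    (h1 : ∀ t < s, f t < i) (h2 : i < f s) : ins f s i h1 h2 s.castSucc = i := by
  simp [ins]

/-- row relation: expansion along a doubled column -/
lemma rel_row (c : Fin m × Fin m → τ) (R : Fin (k + 1) ↪o Fin m) (g : Fin k ↪o Fin m) (s : Fin k) :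
    ∑ r : Fin (k + 1), (-1 : MvPolynomial τ K) ^ (r : ℕ) *
      (X (c (R r, g s)) * minor K c (rem R r) g) = 0 := by
  let A : Matrix (Fin (k + 1)) (Fin (k + 1)) (MvPolynomial τ K) :=
    Matrix.of fun i j => X (c (R i, (Fin.cons (g s) g : Fin (k + 1) → Fin m) j))
  have h0 : A.det = 0 := by
    apply Matrix.det_zero_of_column_eq (i := 0) (j := s.succ) (Fin.succ_ne_zero s).symm
    intro i
    simp [A]
  rw [Matrix.det_succ_column_zero] at h0
  rw [← h0]
  refine Finset.sum_congr rfl fun r _ => ?_
  rw [mul_assoc]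
  congr 1

/-- weight of the pairing part -/
def dg (f g : Fin k → Fin m) : ℕ := ∑ q, (f q : ℕ) * (g q : ℕ)

lemma dg_comm (f g : Fin k → Fin m) : dg f g = dg g f := by
  unfold dg; simp_rw [mul_comm]

/-- the height of the `r`-th term of the row relation -/
def ht (R : Fin (k + 1) → Fin m) (g : Fin k → Fin m) (s : Fin k) (r : Fin (k + 1)) : ℕ :=
  (R r : ℕ) * g s + dg (fun q => R (r.succAbove q)) g

lemma height_step (R : Fin (k + 1) → Fin m) (g : Fin k → Fin m) (s a : Fin k) :
    (ht R g s a.castSucc : ℤ) - ht R g s a.succ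
      = (((R a.succ : ℕ) : ℤ) - (R a.castSucc : ℕ)) * (((g a : ℕ) : ℤ) - (g s : ℕ)) := by
  have key : ∀ q, q ≠ a → a.castSucc.succAbove q = a.succ.succAbove q := by
    intro q hq
    rcases lt_or_gt_of_ne hq with h | h
    · rw [Fin.succAbove_of_castSucc_lt _ _ (by simpa using h),
        Fin.succAbove_of_castSucc_lt _ _ (by
          rw [Fin.castSucc_lt_succ_iff]; exact h.le)]
    · rw [Fin.succAbove_of_le_castSucc _ _ (by simpa using h.le),
        Fin.succAbove_of_le_castSucc _ _ (by
          rw [Fin.succ_le_castSucc_iff]; exact h)]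
  unfold ht dg
  push_cast
  rw [← Finset.add_sum_erase _ _ (Finset.mem_univ a),
    ← Finset.add_sum_erase (f := fun q => ((R (a.succ.succAbove q) : ℕ) : ℤ) * ((g q : ℕ) : ℤ)) _ (Finset.mem_univ a)]
  have : ∑ q ∈ univ.erase a, (((R (a.castSucc.succAbove q) : ℕ) : ℤ) * ((g q : ℕ) : ℤ)) =
      ∑ q ∈ univ.erase a, (((R (a.succ.succAbove q) : ℕ) : ℤ) * ((g q : ℕ) : ℤ)) := by
    refine Finset.sum_congr rfl fun q hq => ?_
    rw [key q (Finset.ne_of_mem_erase hq)]
  rw [this, Fin.succAbove_castSucc_self, Fin.succAbove_succ_self]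
  ring

lemma ht_lt_of_lt {R : Fin (k + 1) → Fin m} {g : Fin k → Fin m} (hR : StrictMono R)
    (hg : StrictMono g) (s : Fin k) :
    ∀ (n : ℕ) (r : Fin (k + 1)), (r : ℕ) + (n + 1) = s → ht R g s r < ht R g s s.castSucc := by
  have step : ∀ a : Fin k, a < s → ht R g s a.castSucc < ht R g s a.succ := by
    intro a ha
    have h := height_step R g s a
    have h1 : ((R a.castSucc : ℕ) : ℤ) < (R a.succ : ℕ) := by
      exact_mod_cast hR (Fin.castSucc_lt_succ)
    have h2 : ((g a : ℕ) : ℤ) < (g s : ℕ) := by exact_mod_cast hg ha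
    have : (ht R g s a.castSucc : ℤ) < ht R g s a.succ := by nlinarith
    exact_mod_cast this
  intro n
  induction n with
  | zero =>
    intro r hr
    have hrk : (r : ℕ) < k := by have := s.isLt; omega
    have e1 : r = (⟨r, hrk⟩ : Fin k).castSucc := by ext; simp
    have e2 : s.castSucc = (⟨r, hrk⟩ : Fin k).succ := by ext; simp; omega
    rw [e2]
    conv_lhs => rw [e1]
    exact step _ (by rw [Fin.lt_def]; simp; omega)
  | succ n ih =>
    intro r hr
    have hrk : (r : ℕ) < k := by have := s.isLt; omega
    have e1 : r = (⟨r, hrk⟩ : Fin k).castSucc := by ext; simp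
    refine lt_trans (b := ht R g s (⟨r, hrk⟩ : Fin k).succ) ?_ (ih _ (by simp; omega))
    conv_lhs => rw [e1]
    exact step _ (by rw [Fin.lt_def]; simp; omega)

lemma ht_le_of_ge {R : Fin (k + 1) → Fin m} {g : Fin k → Fin m} (hR : StrictMono R)
    (hg : StrictMono g) (s : Fin k) :
    ∀ (n : ℕ) (r : Fin (k + 1)), (r : ℕ) = s + n → ht R g s r ≤ ht R g s s.castSucc := by
  have step : ∀ a : Fin k, s ≤ a → ht R g s a.succ ≤ ht R g s a.castSucc := by
    intro a ha
    have h := height_step R g s a
    have h1 : ((R a.castSucc : ℕ) : ℤ) < (R a.succ : ℕ) := by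
      exact_mod_cast hR (Fin.castSucc_lt_succ)
    have h2 : ((g s : ℕ) : ℤ) ≤ (g a : ℕ) := by exact_mod_cast hg.monotone ha
    have : (ht R g s a.succ : ℤ) ≤ ht R g s a.castSucc := by nlinarith
    exact_mod_cast this
  intro n
  induction n with
  | zero =>
    intro r hr
    have : r = s.castSucc := by ext; simp; omega
    rw [this]
  | succ n ih =>
    intro r hr
    have hrk : (s : ℕ) + n < k := by have := r.isLt; omega
    have e1 : r = (⟨(s : ℕ) + n, hrk⟩ : Fin k).succ := by ext; simp; omega
    rw [e1]
    refine le_trans (step _ (by rw [Fin.le_def]; simp)) (ih _ (by simp))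

/-- total of the rows of the `r`-th term -/
lemma sum_rem (R : Fin (k + 1) → Fin m) (r : Fin (k + 1)) :
    (R r : ℕ) + ∑ q, (R (r.succAbove q) : ℕ) = ∑ q, (R q : ℕ) :=
  (Fin.sum_univ_succAbove (fun q => (R q : ℕ)) r).symm

variable [Fintype τ]

/-- the measure that decreases -/
def mu (wt : τ → ℕ) (u : τ →₀ ℕ) (f g : Fin k → Fin m) : ℕ ×ₗ ℕ :=
  toLex (∑ x, u x * wt x + dg f g, ∑ q, (f q : ℕ) + ∑ q, (g q : ℕ))

lemma mu_comm (wt : τ → ℕ) (u : τ →₀ ℕ) (f g : Fin k → Fin m) : mu wt u f g = mu wt u g f := by
  unfold mu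
  rw [dg_comm, add_comm (∑ q, (f q : ℕ))]

/-- products of the same degree and smaller measure -/
def smaller (K : Type*) [Field K] {m k : ℕ} {τ : Type*} [Fintype τ] (c : Fin m × Fin m → τ)
    (wt : τ → ℕ) (u : τ →₀ ℕ) (f g : Fin k ↪o Fin m) : Set (MvPolynomial τ K) :=
  {p | ∃ (u' : τ →₀ ℕ) (f' g' : Fin k ↪o Fin m), u'.degree = u.degree ∧
    mu wt u' f' g' < mu wt u f g ∧ p = monomial u' 1 * minor K c f' g'}

lemma smaller_swap (c : Fin m × Fin m → τ) (wt : τ → ℕ) (u : τ →₀ ℕ) (f g : Fin k ↪o Fin m) :
    smaller K (c ∘ Prod.swap) wt u g f ⊆ smaller K c wt u f g := by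
  rintro p ⟨u', f', g', h1, h2, rfl⟩
  refine ⟨u', g', f', h1, ?_, ?_⟩
  · rw [mu_comm wt u' g' f', mu_comm wt u f g]; exact h2
  · rw [minor_swap]

lemma rewrite_row (c : Fin m × Fin m → τ) (wt : τ → ℕ) (hw : ∀ i j, wt (c (i, j)) = (i : ℕ) * j)
    (u : τ →₀ ℕ) (f g : Fin k ↪o Fin m) (s : Fin k) (i : Fin m)
    (h1 : ∀ t < s, f t < i) (h2 : i < f s) (hu : u (c (i, g s)) ≠ 0) :
    monomial u (1 : K) * minor K c f g ∈ Submodule.span K (smaller K c wt u f g) := by
  classical
  set R := ins f s i h1 h2 with hRdef
  have hRf : rem R s.castSucc = f := rem_ins f s i h1 h2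
  have hRi : R s.castSucc = i := ins_self f s i h1 h2
  set x := c (i, g s) with hx
  have hle : Finsupp.single x 1 ≤ u := by
    intro y
    rcases eq_or_ne y x with rfl | hy
    · simpa using Nat.one_le_iff_ne_zero.2 hu
    · simp [Ne.symm hy]
  obtain ⟨v, hv⟩ := exists_add_of_le hle
  have hrel := rel_row (K := K) c R g s
  rw [Fin.sum_univ_succAbove _ s.castSucc, hRf, hRi] at hrel
  -- solve for the main term
  have hmain : monomial u (1 : K) * minor K c f g =
      ∑ r : Fin k, (-((-1 : K) ^ (s : ℕ) * (-1) ^ ((s.castSucc.succAbove r : Fin (k + 1)) : ℕ))) •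
        (monomial (Finsupp.single (c (R (s.castSucc.succAbove r), g s)) 1 + v) (1 : K) *
          minor K c (rem R (s.castSucc.succAbove r)) g) := by
    have e1 : monomial u (1 : K) = X x * monomial v 1 := by
      rw [hv, X, monomial_mul, one_mul]
    have e2 : ∀ r : Fin k,
        (monomial (Finsupp.single (c (R (s.castSucc.succAbove r), g s)) 1 + v) (1 : K)
          : MvPolynomial τ K) = X (c (R (s.castSucc.succAbove r), g s)) * monomial v 1 := by
      intro r
      rw [X, monomial_mul, one_mul]
    simp_rw [e1, e2]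
    have h3 := eq_neg_of_add_eq_zero_left hrel
    have hs2 : ((-1 : MvPolynomial τ K) ^ (s : ℕ)) * (-1) ^ (s : ℕ) = 1 := by
      rw [← mul_pow]; simp
    calc X x * monomial v 1 * minor K c f g
        = monomial v 1 * ((-1) ^ (s : ℕ) * ((-1 : MvPolynomial τ K) ^ ((s.castSucc : Fin (k + 1)) : ℕ) *
            (X (c (i, g s)) * minor K c f g))) := by
          rw [← mul_assoc ((-1 : MvPolynomial τ K) ^ (s : ℕ)), Fin.val_castSucc, hs2, hx]; ring
      _ = _ := by
          rw [h3, mul_neg, mul_neg, Finset.mul_sum, Finset.mul_sum, ← Finset.sum_neg_distrib]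
          refine Finset.sum_congr rfl fun r _ => ?_
          rw [MvPolynomial.smul_eq_C_mul]
          simp only [map_neg, map_mul, map_pow, map_one]
          ring
  rw [hmain]
  refine Submodule.sum_mem _ fun r _ => Submodule.smul_mem _ _ (Submodule.subset_span ?_)
  set r' := s.castSucc.succAbove r with hr'
  refine ⟨_, _, _, ?_, ?_, rfl⟩
  · rw [hv, map_add, map_add, Finsupp.degree_single, Finsupp.degree_single]
  · -- measure
    have hWu : ∀ (y : τ), ∑ z, (Finsupp.single y 1 + v : τ →₀ ℕ) z * wt z = wt y + ∑ z, v z * wt z := by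
      intro y
      simp_rw [Finsupp.add_apply, add_mul, Finset.sum_add_distrib]
      congr 1
      rw [Finset.sum_eq_single y]
      · simp
      · intro z _ hz; simp [Ne.symm hz]
      · intro h; exact absurd (Finset.mem_univ y) h
    have hne : r' ≠ s.castSucc := Fin.succAbove_ne _ _
    unfold mu
    rw [Prod.Lex.toLex_lt_toLex]
    rw [hv, hWu, hWu, hw, hx, hw]
    have hR := R.strictMono
    have E1 : (R r' : ℕ) * (g s : ℕ) + ∑ z, v z * wt z + dg (rem R r') g
        = ht R g s r' + ∑ z, v z * wt z := by
      unfold ht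
      have : dg (rem R r') g = dg (fun q => R (r'.succAbove q)) g := rfl
      rw [this]; ring
    have E2 : (i : ℕ) * (g s : ℕ) + ∑ z, v z * wt z + dg f g
        = ht R g s s.castSucc + ∑ z, v z * wt z := by
      unfold ht
      have : dg (fun q => R (s.castSucc.succAbove q)) g = dg f g := by
        have h := congrArg (fun F : Fin k ↪o Fin m => dg F g) hRf
        exact h
      rw [this, hRi]; ring
    rw [E1, E2]
    rcases lt_or_ge r' s.castSucc with hlt | hge
    · left
      have : (r' : ℕ) < s := by simpa [Fin.lt_def] using hlt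
      have := ht_lt_of_lt hR g.strictMono s (s - r' - 1) r' (by omega)
      omega
    · have hge' : s.castSucc < r' := lt_of_le_of_ne hge hne.symm
      have h4 : (s : ℕ) ≤ r' := by simpa [Fin.le_def] using hge
      have h5 := ht_le_of_ge hR g.strictMono s (r' - s) r' (by omega)
      rcases h5.lt_or_eq with h6 | h6
      · left; omega
      · right
        refine ⟨by omega, ?_⟩
        have h7 := sum_rem R r'
        have h8 := sum_rem R s.castSucc
        have h9 : (R s.castSucc : ℕ) < R r' := hR hge'
        have h10 : ∑ q, ((rem R r' q : Fin m) : ℕ) = ∑ q, (R (r'.succAbove q) : ℕ) := rfl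
        have h11 : ∑ q, (f q : ℕ) = ∑ q, (R (s.castSucc.succAbove q) : ℕ) := by
          have h := congrArg (fun F : Fin k ↪o Fin m => ∑ q, ((F q : Fin m) : ℕ)) hRf
          exact h.symm
        rw [h10, h11]
        omega

lemma rewrite_col (c : Fin m × Fin m → τ) (wt : τ → ℕ) (hw : ∀ i j, wt (c (i, j)) = (i : ℕ) * j)
    (u : τ →₀ ℕ) (f g : Fin k ↪o Fin m) (s : Fin k) (j : Fin m)
    (h1 : ∀ t < s, g t < j) (h2 : j < g s) (hu : u (c (f s, j)) ≠ 0) :
    monomial u (1 : K) * minor K c f g ∈ Submodule.span K (smaller K c wt u f g) := by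
  have h := rewrite_row (K := K) (c ∘ Prod.swap) wt (fun i j => by simp [hw, mul_comm]) u g f s j h1 h2
    (by simpa using hu)
  rw [minor_swap] at h
  exact Submodule.span_mono (smaller_swap c wt u f g) h

/-- the forbidden cells of a pair of row and column sets -/
def Forb (f g : Fin k ↪o Fin m) : Set (Fin m × Fin m) :=
  {p | (∃ s, p.2 = g s ∧ p.1 < f s ∧ ∀ t < s, f t < p.1) ∨
    (∃ s, p.1 = f s ∧ p.2 < g s ∧ ∀ t < s, g t < p.2)}

/-- the reduced products of degree `e` (degree of the monomial factor) -/
def reducedSet (K : Type*) [Field K] {m : ℕ} (k : ℕ) {τ : Type*} (c : Fin m × Fin m → τ) (e : ℕ) :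
    Set (MvPolynomial τ K) :=
  {p | ∃ (u : τ →₀ ℕ) (f g : Fin k ↪o Fin m), u.degree = e ∧ (∀ x ∈ Forb f g, u (c x) = 0) ∧
    p = monomial u 1 * minor K c f g}

theorem mem_span_reduced {c : Fin m × Fin m → τ} (hc : Function.Injective c) (u : τ →₀ ℕ)
    (f g : Fin k ↪o Fin m) :
    monomial u (1 : K) * minor K c f g ∈ Submodule.span K (reducedSet K k c u.degree) := by
  classical
  let wt : τ → ℕ := Function.extend c (fun p => (p.1 : ℕ) * p.2) 0
  have hw : ∀ i j, wt (c (i, j)) = (i : ℕ) * j := fun i j => hc.extend_apply _ _ (i, j)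
  have main : ∀ (z : ℕ ×ₗ ℕ) (u : τ →₀ ℕ) (f g : Fin k ↪o Fin m), mu wt u f g = z →
      monomial u (1 : K) * minor K c f g ∈ Submodule.span K (reducedSet K k c u.degree) := by
    intro z
    induction z using WellFoundedLT.induction with
    | ind z ih =>
      intro u f g hz
      by_cases hred : ∀ x ∈ Forb f g, u (c x) = 0
      · exact Submodule.subset_span ⟨u, f, g, rfl, hred, rfl⟩
      · push Not at hred
        obtain ⟨⟨i, j⟩, hx, hux⟩ := hred
        have hmem : monomial u (1 : K) * minor K c f g ∈
            Submodule.span K (smaller K c wt u f g) := by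
          rcases hx with ⟨s, h1, h2, h3⟩ | ⟨s, h1, h2, h3⟩
          · exact rewrite_row c wt hw u f g s i h3 h2 (by simp only at h1; rw [← h1]; exact hux)
          · exact rewrite_col c wt hw u f g s j h3 h2 (by simp only at h1; rw [← h1]; exact hux)
        refine Submodule.span_le.2 ?_ hmem
        rintro p ⟨u', f', g', hd, hlt, rfl⟩
        have := ih _ (hz ▸ hlt) u' f' g' rfl
        rw [hd] at this
        exact this
  exact main _ u f g rfl

/-- products of degree `e` (degree of the monomial factor) -/
def productSet (K : Type*) [Field K] {m : ℕ} (k : ℕ) {τ : Type*} (c : Fin m × Fin m → τ) (e : ℕ) :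
    Set (MvPolynomial τ K) :=
  {p | ∃ (u : τ →₀ ℕ) (f g : Fin k ↪o Fin m), u.degree = e ∧ p = monomial u 1 * minor K c f g}

/-- products of degree at most `l` -/
def productSetLe (K : Type*) [Field K] {m : ℕ} (k : ℕ) {τ : Type*} (c : Fin m × Fin m → τ) (l : ℕ) :
    Set (MvPolynomial τ K) :=
  {p | ∃ (u : τ →₀ ℕ) (f g : Fin k ↪o Fin m), u.degree ≤ l ∧ p = monomial u 1 * minor K c f g}

theorem span_productSet {c : Fin m × Fin m → τ} (hc : Function.Injective c) (e : ℕ) :
    Submodule.span K (productSet K k c e) = Submodule.span K (reducedSet K k c e) := by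
  apply le_antisymm
  · refine Submodule.span_le.2 ?_
    rintro p ⟨u, f, g, rfl, rfl⟩
    exact mem_span_reduced hc u f g
  · refine Submodule.span_mono ?_
    rintro p ⟨u, f, g, h1, _, rfl⟩
    exact ⟨u, f, g, h1, rfl⟩

theorem span_productSetLe {c : Fin m × Fin m → τ} (hc : Function.Injective c) (l : ℕ) :
    Submodule.span K (productSetLe K k c l) =
      Submodule.span K (⋃ e ∈ Finset.range (l + 1), reducedSet K k c e) := by
  apply le_antisymm
  · refine Submodule.span_le.2 ?_
    rintro p ⟨u, f, g, hu, rfl⟩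
    refine Submodule.span_mono ?_ (mem_span_reduced hc u f g)
    intro q hq
    exact Set.mem_biUnion (x := u.degree) (by simpa using Nat.lt_succ_of_le hu) hq
  · refine Submodule.span_mono ?_
    intro p hp
    simp only [Set.mem_iUnion] at hp
    obtain ⟨e, he, u, f, g, h1, _, rfl⟩ := hp
    exact ⟨u, f, g, by rw [h1]; exact Nat.lt_succ_iff.1 (Finset.mem_range.1 he), rfl⟩

end general

section count

variable {m k : ℕ}

/-- number of gaps of a `k`-subset below its maximum -/
noncomputable def rho (f : Fin k ↪o Fin m) : ℕ := by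
  classical exact #{i : Fin m | i ∉ Set.range f ∧ ∃ s, i < f s}

/-- the row of a forbidden cell of row type determines the cell -/
lemma exists_first (f : Fin k ↪o Fin m) (i : Fin m) (h1 : i ∉ Set.range f) (h2 : ∃ s, i < f s) :
    ∃ s, i < f s ∧ ∀ t < s, f t < i := by
  classical
  have hne : (Finset.univ.filter fun s => i < f s).Nonempty := by
    obtain ⟨s, hs⟩ := h2
    exact ⟨s, by simpa using hs⟩
  refine ⟨(Finset.univ.filter fun s => i < f s).min' hne, ?_, ?_⟩
  · have := Finset.min'_mem _ hne
    simpa using this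
  · intro t ht
    by_contra hcon
    have h3 : i < f t := lt_of_le_of_ne (not_lt.1 hcon) (fun h => h1 ⟨t, h.symm⟩)
    have : (Finset.univ.filter fun s => i < f s).min' hne ≤ t :=
      Finset.min'_le _ _ (by simpa using h3)
    exact absurd ht (not_lt.2 this)

/-- the forbidden cells as a finset -/
noncomputable def forb (f g : Fin k ↪o Fin m) : Finset (Fin m × Fin m) := by
  classical exact {p | p ∈ Forb f g}

lemma mem_forb (f g : Fin k ↪o Fin m) (p : Fin m × Fin m) : p ∈ forb f g ↔ p ∈ Forb f g := by
  simp [forb]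

lemma rho_add_rho_le (f g : Fin k ↪o Fin m) : rho f + rho g ≤ #(forb f g) := by
  classical
  let A : Finset (Fin m) := {i : Fin m | i ∉ Set.range f ∧ ∃ s, i < f s}
  let B : Finset (Fin m) := {i : Fin m | i ∉ Set.range g ∧ ∃ s, i < g s}
  have hA : ∀ i ∈ A, ∃ s, i < f s ∧ ∀ t < s, f t < i := by
    intro i hi
    simp only [A, Finset.mem_filter, Finset.mem_univ, true_and] at hi
    exact exists_first f i hi.1 hi.2
  have hB : ∀ i ∈ B, ∃ s, i < g s ∧ ∀ t < s, g t < i := by
    intro i hi
    simp only [B, Finset.mem_filter, Finset.mem_univ, true_and] at hi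
    exact exists_first g i hi.1 hi.2
  choose a ha using hA
  choose b hb using hB
  let F : A ⊕ B → Fin m × Fin m := Sum.elim (fun i => ((i : Fin m), g (a i.1 i.2)))
    (fun j => (f (b j.1 j.2), (j : Fin m)))
  have hF : Function.Injective F := by
    rintro (i | i) (j | j) h
    · simp only [F, Sum.elim_inl, Prod.mk.injEq] at h
      rw [Subtype.ext h.1]
    · exfalso
      simp only [F, Sum.elim_inl, Sum.elim_inr, Prod.mk.injEq] at h
      have := i.2
      simp only [A, Finset.mem_filter, Finset.mem_univ, true_and] at this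
      exact this.1 ⟨_, h.1.symm⟩
    · exfalso
      simp only [F, Sum.elim_inl, Sum.elim_inr, Prod.mk.injEq] at h
      have := j.2
      simp only [A, Finset.mem_filter, Finset.mem_univ, true_and] at this
      exact this.1 ⟨_, h.1⟩
    · simp only [F, Sum.elim_inr, Prod.mk.injEq] at h
      rw [Subtype.ext h.2]
  have hsub : Finset.univ.image F ⊆ forb f g := by
    intro p hp
    rw [Finset.mem_image] at hp
    obtain ⟨x, -, rfl⟩ := hp
    rw [mem_forb]
    rcases x with i | i
    · exact Or.inl ⟨a i.1 i.2, rfl, (ha i.1 i.2).1, (ha i.1 i.2).2⟩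
    · exact Or.inr ⟨b i.1 i.2, rfl, (hb i.1 i.2).1, (hb i.1 i.2).2⟩
  have hcard : #(Finset.univ.image F) = rho f + rho g := by
    rw [Finset.card_image_of_injective _ hF, Finset.card_univ, Fintype.card_sum,
      Fintype.card_coe, Fintype.card_coe]
    rfl
  rw [← hcard]
  exact Finset.card_le_card hsub

variable {K : Type*} [Field K] {τ : Type*} [Fintype τ] [DecidableEq τ]

/-- the cells that are allowed in the monomial factor -/
noncomputable def allowed (c : Fin m × Fin m → τ) (f g : Fin k ↪o Fin m) : Finset τ :=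
  Finset.univ \ (forb f g).image c

lemma card_allowed_le {c : Fin m × Fin m → τ} (hc : Function.Injective c) (f g : Fin k ↪o Fin m) :
    #(allowed c f g) ≤ Fintype.card τ - (rho f + rho g) := by
  unfold allowed
  rw [Finset.card_sdiff_of_subset (Finset.subset_univ _), Finset.card_univ,
    Finset.card_image_of_injective _ hc]
  exact Nat.sub_le_sub_left (rho_add_rho_le f g) _

lemma multichoose_mono_left {a b : ℕ} (h : a ≤ b) (e : ℕ) : a.multichoose e ≤ b.multichoose e := by
  rw [Nat.multichoose_eq, Nat.multichoose_eq]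
  exact Nat.choose_le_choose _ (by omega)

/-- the finite family of reduced products -/
noncomputable def redFin (K : Type*) [Field K] {m : ℕ} (k : ℕ) {τ : Type*} [Fintype τ]
    [DecidableEq τ] (c : Fin m × Fin m → τ) (e : ℕ) : Finset (MvPolynomial τ K) := by
  classical exact
    (Finset.univ : Finset ((Fin k ↪o Fin m) × (Fin k ↪o Fin m))).biUnion fun p =>
      ((allowed c p.1 p.2).finsuppAntidiag e).image fun u => monomial u 1 * minor K c p.1 p.2

lemma reducedSet_subset (c : Fin m × Fin m → τ) (e : ℕ) :
    reducedSet K k c e ⊆ (redFin K k c e : Set (MvPolynomial τ K)) := by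
  classical
  rintro p ⟨u, f, g, h1, h2, rfl⟩
  simp only [redFin, Finset.mem_coe, Finset.mem_biUnion, Finset.mem_univ, true_and,
    Finset.mem_image]
  refine ⟨(f, g), u, ?_, rfl⟩
  rw [Finset.mem_finsuppAntidiag]
  have hsupp : u.support ⊆ allowed c f g := by
    intro x hx
    simp only [allowed, Finset.mem_sdiff, Finset.mem_univ, true_and, Finset.mem_image, not_exists,
      not_and]
    intro y hy hyx
    rw [mem_forb] at hy
    have := h2 y hy
    rw [hyx] at this
    exact (Finsupp.mem_support_iff.1 hx) this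
  refine ⟨?_, hsupp⟩
  rw [← h1, Finsupp.degree_apply]
  exact (Finset.sum_subset hsupp fun x _ hx => by simpa using hx).symm

lemma card_redFin {c : Fin m × Fin m → τ} (hc : Function.Injective c) (e : ℕ) :
    #(redFin K k c e) ≤ ∑ f : Fin k ↪o Fin m, ∑ g : Fin k ↪o Fin m,
      (Fintype.card τ - (rho f + rho g)).multichoose e := by
  classical
  unfold redFin
  refine (Finset.card_biUnion_le).trans ?_
  rw [Fintype.sum_prod_type]
  refine Finset.sum_le_sum fun f _ => Finset.sum_le_sum fun g _ => ?_
  refine Finset.card_image_le.trans ?_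
  rw [Finset.card_finsuppAntidiag_nat_eq_multichoose]
  exact multichoose_mono_left (card_allowed_le hc f g) e

/-- number of products of degree `e` -/
theorem finrank_span_productSet_le {c : Fin m × Fin m → τ} (hc : Function.Injective c) (e : ℕ) :
    Module.finrank K (Submodule.span K (productSet K k c e)) ≤
      ∑ f : Fin k ↪o Fin m, ∑ g : Fin k ↪o Fin m,
        (Fintype.card τ - (rho f + rho g)).multichoose e := by
  rw [span_productSet hc]
  have h1 : Submodule.span K (reducedSet K k c e) ≤
      Submodule.span K (redFin K k c e : Set (MvPolynomial τ K)) :=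
    Submodule.span_mono (reducedSet_subset c e)
  exact ((Submodule.finrank_mono h1).trans (finrank_span_finset_le_card _)).trans
    (card_redFin hc e)

/-- the products of degree at most `l` are contained in a finite dimensional space -/
instance finite_span_productSet {c : Fin m × Fin m → τ} (e : ℕ) :
    FiniteDimensional K (Submodule.span K (reducedSet K k c e)) :=
  FiniteDimensional.span_of_finite K ((redFin K k c e).finite_toSet.subset (reducedSet_subset c e))

/-- the span of all products of degree at most `l` is finite dimensional -/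
theorem finite_span_productSetLe {c : Fin m × Fin m → τ} (hc : Function.Injective c) (l : ℕ) :
    FiniteDimensional K (Submodule.span K (productSetLe K k c l)) := by
  classical
  rw [span_productSetLe hc]
  refine FiniteDimensional.span_of_finite K (Set.Finite.biUnion (Finset.finite_toSet _) fun e _ => ?_)
  exact (redFin K k c e).finite_toSet.subset (reducedSet_subset c e)

theorem finrank_span_productSetLe_le {c : Fin m × Fin m → τ} (hc : Function.Injective c) (l : ℕ) :
    Module.finrank K (Submodule.span K (productSetLe K k c l)) ≤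
      ∑ e ∈ Finset.range (l + 1), ∑ f : Fin k ↪o Fin m, ∑ g : Fin k ↪o Fin m,
        (Fintype.card τ - (rho f + rho g)).multichoose e := by
  classical
  rw [span_productSetLe hc]
  let S : Finset (MvPolynomial τ K) := (Finset.range (l + 1)).biUnion fun e => redFin K k c e
  have h1 : Submodule.span K (⋃ e ∈ Finset.range (l + 1), reducedSet K k c e) ≤
      Submodule.span K (S : Set (MvPolynomial τ K)) := by
    refine Submodule.span_mono ?_
    intro p hp
    simp only [Set.mem_iUnion] at hp
    obtain ⟨e, he, hp⟩ := hp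
    simp only [S, Finset.coe_biUnion, Set.mem_iUnion]
    exact ⟨e, he, reducedSet_subset c e hp⟩
  refine ((Submodule.finrank_mono h1).trans (finrank_span_finset_le_card _)).trans ?_
  refine Finset.card_biUnion_le.trans (Finset.sum_le_sum fun e _ => card_redFin hc e)

end count

end Pool.Agent.Helper90.SD
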