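import Pool.Agent.Helper90.SD.Cnt
import Pool.Agent.Helper41.SDet.Wt

/-!
Project SDET, second wave: side (U) for weighted variables, in abstract form (any finite family of
polynomials `P k` in finitely many variables `E`, with forbidden variables `forb k` such that the
reduced products span), and the removal of the new variables.
-/

namespace Pool.Agent.Helper90.SD

open MvPolynomial Finset Pool.Agent.Helper41.SD
open scoped ENNReal

section series

/-- shift of a series -/
lemma tsum_shift (g : ℕ → ℝ≥0∞) (s : ℕ) :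
    ∑' l, (if s ≤ l then g (l - s) else 0) = ∑' i, g i := by
  have hinj : Function.Injective fun i : ℕ => i + s := fun a b h => by
    simpa using h
  rw [← hinj.tsum_eq (f := fun l => if s ≤ l then g (l - s) else 0)]
  · refine tsum_congr fun i => ?_
    simp
  · intro l hl
    rw [Function.mem_support] at hl
    by_cases h : s ≤ l
    · exact ⟨l - s, by simp [Nat.sub_add_cancel h]⟩
    · rw [if_neg h] at hl; exact absurd rfl hl

/-- a convolution of series, the second one in the powers of `Q ^ d` -/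
lemma tsum_conv (a c : ℕ → ℝ≥0∞) (Q : ℝ≥0∞) {d : ℕ} (hd : 1 ≤ d) :
    ∑' l, Q ^ l * ∑ b ∈ (Finset.range (l + 1)).filter (fun b => d * b ≤ l), c b * a (l - d * b) =
      (∑' b, (Q ^ d) ^ b * c b) * ∑' i, Q ^ i * a i := by
  have h1 : ∀ l, Q ^ l * ∑ b ∈ (Finset.range (l + 1)).filter (fun b => d * b ≤ l),
      c b * a (l - d * b) =
      ∑' b, ((Q ^ d) ^ b * c b) * (if d * b ≤ l then Q ^ (l - d * b) * a (l - d * b) else 0) := by
    intro l
    rw [tsum_eq_sum (s := (Finset.range (l + 1)).filter (fun b => d * b ≤ l)), Finset.mul_sum]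
    · refine Finset.sum_congr rfl fun b hb => ?_
      have hb2 := (Finset.mem_filter.1 hb).2
      rw [if_pos hb2, ← pow_mul]
      have e : Q ^ l = Q ^ (d * b) * Q ^ (l - d * b) := by
        rw [← pow_add]; congr 1; omega
      rw [e]; ring
    · intro b hb
      have : ¬ d * b ≤ l := by
        intro h
        apply hb
        rw [Finset.mem_filter, Finset.mem_range]
        refine ⟨?_, h⟩
        have : 1 * b ≤ d * b := Nat.mul_le_mul_right b hd
        omega
      rw [if_neg this, mul_zero]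
  simp_rw [h1]
  rw [ENNReal.tsum_comm, ← ENNReal.tsum_mul_right]
  refine tsum_congr fun b => ?_
  rw [ENNReal.tsum_mul_left, tsum_shift (fun i => Q ^ i * a i) (d * b)]

end series

section split

variable {K : Type*} [Field K] {σ E κ : Type*}

/-- the weight function: `1` on the first kind, `d` on the second kind -/
def wt (σ E : Type*) (d : ℕ) : σ ⊕ E → ℕ := Sum.elim (fun _ => 1) (fun _ => d)

lemma wt_ne_zero {d : ℕ} (hd : 1 ≤ d) (x : σ ⊕ E) : wt σ E d x ≠ 0 := by
  rcases x with s | e
  · simp [wt]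
  · simp only [wt, Sum.elim_inr]; omega

/-- the part of an exponent in the first variables -/
noncomputable def fp (u : (σ ⊕ E) →₀ ℕ) : σ →₀ ℕ := u.comapDomain Sum.inl Sum.inl_injective.injOn

/-- the part of an exponent in the second variables -/
noncomputable def sp (u : (σ ⊕ E) →₀ ℕ) : E →₀ ℕ := u.comapDomain Sum.inr Sum.inr_injective.injOn

lemma split_eq (u : (σ ⊕ E) →₀ ℕ) : u = (fp u).mapDomain Sum.inl + (sp u).mapDomain Sum.inr := by
  classical
  ext x
  rcases x with s | e
  · rw [Finsupp.add_apply, Finsupp.mapDomain_apply Sum.inl_injective,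
      Finsupp.mapDomain_of_notMem_range _ _ (by simp), add_zero]
    rfl
  · rw [Finsupp.add_apply, Finsupp.mapDomain_apply Sum.inr_injective,
      Finsupp.mapDomain_of_notMem_range _ _ (by simp), zero_add]
    rfl

lemma weight_mapDomain_inl (d : ℕ) (u : σ →₀ ℕ) :
    Finsupp.weight (wt σ E d) (u.mapDomain Sum.inl) = u.degree := by
  rw [Finsupp.weight_apply, Finsupp.sum_mapDomain_index (by simp) (by intros; simp [add_mul]),
    Finsupp.degree_apply, Finsupp.sum]
  refine Finset.sum_congr rfl fun x _ => ?_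
  simp [wt]

lemma weight_mapDomain_inr (d : ℕ) (u : E →₀ ℕ) :
    Finsupp.weight (wt σ E d) (u.mapDomain Sum.inr) = d * u.degree := by
  rw [Finsupp.weight_apply, Finsupp.sum_mapDomain_index (by simp) (by intros; simp [add_mul]),
    Finsupp.degree_apply, Finsupp.sum, Finset.mul_sum]
  refine Finset.sum_congr rfl fun x _ => ?_
  simp [wt, mul_comm]

lemma weight_split (d : ℕ) (u : (σ ⊕ E) →₀ ℕ) :
    Finsupp.weight (wt σ E d) u = (fp u).degree + d * (sp u).degree := by
  conv_lhs => rw [split_eq u]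
  rw [map_add, weight_mapDomain_inl, weight_mapDomain_inr]

lemma monomial_split (u : (σ ⊕ E) →₀ ℕ) (g : MvPolynomial E K) :
    monomial u (1 : K) * rename Sum.inr g =
      rename (Sum.inl : σ → σ ⊕ E) (monomial (fp u) (1 : K)) *
        rename (Sum.inr : E → σ ⊕ E) (monomial (sp u) (1 : K) * g) := by
  rw [map_mul, rename_monomial, rename_monomial, ← mul_assoc, monomial_mul, one_mul, ← split_eq]

end split

section upper

variable {K : Type*} [Field K] {σ E κ : Type*} [Fintype σ] [Fintype E] [Fintype κ]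

/-- the reduced products for the index `k`: monomial factor of weight at most `l`, no variable in
`forb k` -/
noncomputable def redW (σ : Type*) [Fintype σ] (P : κ → MvPolynomial E K) (forb : κ → Finset E)
    (d l : ℕ) : Finset (MvPolynomial (σ ⊕ E) K) := by
  classical exact
  (Finset.univ : Finset κ).biUnion fun k =>
    ((Finset.range (l + 1)).filter (fun b => d * b ≤ l)).biUnion fun b =>
      (Finset.range (l - d * b + 1)).biUnion fun a =>
        (((Finset.univ : Finset σ).finsuppAntidiag a) ×ˢ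
          ((Finset.univ \ forb k).finsuppAntidiag b)).image fun p =>
            rename (Sum.inl : σ → σ ⊕ E) (monomial p.1 (1 : K)) *
              rename (Sum.inr : E → σ ⊕ E) (monomial p.2 (1 : K) * P k)

lemma card_redW (P : κ → MvPolynomial E K) (forb : κ → Finset E) (d l : ℕ) :
    #(redW σ P forb d l) ≤ ∑ k, ∑ b ∈ (Finset.range (l + 1)).filter (fun b => d * b ≤ l),
      (Fintype.card E - #(forb k)).multichoose b *
        (Fintype.card σ + 1).multichoose (l - d * b) := by
  classical
  unfold redW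
  refine Finset.card_biUnion_le.trans (Finset.sum_le_sum fun k _ => ?_)
  refine Finset.card_biUnion_le.trans (Finset.sum_le_sum fun b hb => ?_)
  refine Finset.card_biUnion_le.trans ?_
  have h1 : (Fintype.card σ + 1).multichoose (l - d * b) =
      ∑ a ∈ Finset.range (l - d * b + 1), (Fintype.card σ).multichoose a := by
    rw [Nat.sum_range_multichoose, Nat.multichoose_eq,
      show Fintype.card σ + 1 + (l - d * b) - 1 = (l - d * b) + Fintype.card σ by omega,
      Nat.choose_symm_add]
  rw [h1, Finset.mul_sum]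
  refine Finset.sum_le_sum fun a _ => ?_
  refine Finset.card_image_le.trans ?_
  rw [Finset.card_product, Finset.card_finsuppAntidiag_nat_eq_multichoose,
    Finset.card_finsuppAntidiag_nat_eq_multichoose, Finset.card_univ, mul_comm,
    Finset.card_sdiff_of_subset (Finset.subset_univ _), Finset.card_univ]

lemma mem_redW (P : κ → MvPolynomial E K) (forb : κ → Finset E) (d l : ℕ) (hd : 1 ≤ d)
    (u : σ →₀ ℕ) (v : E →₀ ℕ) (k : κ) (hu : u.degree + d * v.degree ≤ l)
    (hv : ∀ e ∈ forb k, v e = 0) :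
    rename (Sum.inl : σ → σ ⊕ E) (monomial u (1 : K)) *
      rename (Sum.inr : E → σ ⊕ E) (monomial v (1 : K) * P k) ∈ redW σ P forb d l := by
  classical
  simp only [redW, Finset.mem_biUnion, Finset.mem_univ, true_and, Finset.mem_image,
    Finset.mem_filter, Finset.mem_range, Finset.mem_product]
  refine ⟨k, v.degree, ⟨?_, by omega⟩, u.degree, by omega, (u, v), ⟨?_, ?_⟩, rfl⟩
  · have : 1 * v.degree ≤ d * v.degree := Nat.mul_le_mul_right _ hd
    omega
  · rw [Finset.mem_finsuppAntidiag]
    refine ⟨?_, Finset.subset_univ _⟩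
    rw [Finsupp.degree_apply]
    exact (Finset.sum_subset (Finset.subset_univ _) fun x _ hx => by simpa using hx).symm
  · rw [Finset.mem_finsuppAntidiag]
    have hsupp : v.support ⊆ Finset.univ \ forb k := by
      intro x hx
      rw [Finset.mem_sdiff]
      exact ⟨Finset.mem_univ _, fun h => (Finsupp.mem_support_iff.1 hx) (hv x h)⟩
    refine ⟨?_, hsupp⟩
    rw [Finsupp.degree_apply]
    exact (Finset.sum_subset hsupp fun x _ hx => by simpa using hx).symm

/-- the straightening hypothesis: reduced products span -/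
def Straight (P : κ → MvPolynomial E K) (forb : κ → Finset E) : Prop :=
  ∀ (k : κ) (u : E →₀ ℕ), monomial u (1 : K) * P k ∈ Submodule.span K
    {p | ∃ (v : E →₀ ℕ) (j : κ), v.degree = u.degree ∧ (∀ e ∈ forb j, v e = 0) ∧
      p = monomial v 1 * P j}

theorem mulSpan_le_redW (P : κ → MvPolynomial E K) (forb : κ → Finset E) (hred : Straight P forb)
    (d l : ℕ) (hd : 1 ≤ d) :
    mulSpan (wt σ E d) l (fun k => rename (Sum.inr : E → σ ⊕ E) (P k)) ≤
      Submodule.span K (redW σ P forb d l : Set (MvPolynomial (σ ⊕ E) K)) := by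
  classical
  refine Submodule.span_le.2 ?_
  rintro p ⟨u, k, hu, rfl⟩
  rw [weight_split] at hu
  rw [monomial_split]
  have h1 := hred k (sp u)
  let L : MvPolynomial E K →ₗ[K] MvPolynomial (σ ⊕ E) K :=
    (LinearMap.mulLeft K (rename (Sum.inl : σ → σ ⊕ E) (monomial (fp u) (1 : K)))).comp
      (rename (Sum.inr : E → σ ⊕ E)).toLinearMap
  have h2 := Submodule.mem_map_of_mem (f := L) h1
  rw [Submodule.map_span] at h2
  refine Submodule.span_mono ?_ h2
  rintro _ ⟨_, ⟨v, j, hv, hvj, rfl⟩, rfl⟩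
  exact mem_redW P forb d l hd (fp u) v j (by rw [hv]; exact hu) hvj

/-- the number of reduced products bounds the dimension -/
theorem finrank_mulSpan_inr_le (P : κ → MvPolynomial E K) (forb : κ → Finset E)
    (hred : Straight P forb) (d l : ℕ) (hd : 1 ≤ d) :
    Module.finrank K (mulSpan (wt σ E d) l (fun k => rename (Sum.inr : E → σ ⊕ E) (P k))) ≤
      ∑ k, ∑ b ∈ (Finset.range (l + 1)).filter (fun b => d * b ≤ l),
      (Fintype.card E - #(forb k)).multichoose b *
        (Fintype.card σ + 1).multichoose (l - d * b) :=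
  ((Submodule.finrank_mono (mulSpan_le_redW P forb hred d l hd)).trans
    (finrank_span_finset_le_card _)).trans (card_redW P forb d l)

/-- the series for one index -/
lemma tsum_count (d : ℕ) (hd : 1 ≤ d) (n s : ℕ) (Q : ℝ≥0∞) (hQ : Q < 1) :
    ∑' l, Q ^ l * ((∑ b ∈ (Finset.range (l + 1)).filter (fun b => d * b ≤ l),
      n.multichoose b * s.multichoose (l - d * b) : ℕ) : ℝ≥0∞) =
      ((1 - Q ^ d) ^ n)⁻¹ * ((1 - Q) ^ s)⁻¹ := by
  push_cast
  rw [tsum_conv (fun i => ((s.multichoose i : ℕ) : ℝ≥0∞)) (fun b => ((n.multichoose b : ℕ) : ℝ≥0∞))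
    Q hd, tsum_multichoose s Q hQ, tsum_multichoose n (Q ^ d) (pow_lt_one₀ zero_le hQ (by omega))]

/-- (UW1) -/
theorem UW1 (P : κ → MvPolynomial E K) (forb : κ → Finset E)
    (hred : Straight P forb) (d : ℕ) (hd : 1 ≤ d) (Q : ℝ≥0∞) (hQ : Q < 1) :
    (1 - Q) ^ (Fintype.card σ + 1) * (1 - Q ^ d) ^ (Fintype.card E) * ∑' l, Q ^ l *
      (Module.finrank K (mulSpan (wt σ E d) l
        (fun k => rename (Sum.inr : E → σ ⊕ E) (P k))) : ℝ≥0∞) ≤
      ∑ k, (1 - Q ^ d) ^ #(forb k) := by
  classical
  have hQd : Q ^ d < 1 := pow_lt_one₀ zero_le hQ (by omega)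
  have h10 : (1 : ℝ≥0∞) - Q ≠ 0 := (tsub_pos_of_lt hQ).ne'
  have h1t : (1 : ℝ≥0∞) - Q ≠ ∞ := (tsub_le_self.trans_lt ENNReal.one_lt_top).ne
  have hd0 : (1 : ℝ≥0∞) - Q ^ d ≠ 0 := (tsub_pos_of_lt hQd).ne'
  have hdt : (1 : ℝ≥0∞) - Q ^ d ≠ ∞ := (tsub_le_self.trans_lt ENNReal.one_lt_top).ne
  have h1 : ∑' l, Q ^ l * (Module.finrank K (mulSpan (wt σ E d) l
        (fun k => rename (Sum.inr : E → σ ⊕ E) (P k))) : ℝ≥0∞) ≤
      ∑ k, ((1 - Q ^ d) ^ (Fintype.card E - #(forb k)))⁻¹ * ((1 - Q) ^ (Fintype.card σ + 1))⁻¹ := by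
    calc _ ≤ ∑' l, Q ^ l * ((∑ k, ∑ b ∈ (Finset.range (l + 1)).filter (fun b => d * b ≤ l),
          (Fintype.card E - #(forb k)).multichoose b *
            (Fintype.card σ + 1).multichoose (l - d * b) : ℕ) : ℝ≥0∞) := by
          refine ENNReal.tsum_le_tsum fun l => ?_
          gcongr
          exact finrank_mulSpan_inr_le P forb hred d l hd
      _ = ∑ k, ∑' l, Q ^ l * ((∑ b ∈ (Finset.range (l + 1)).filter (fun b => d * b ≤ l),
          (Fintype.card E - #(forb k)).multichoose b *
            (Fintype.card σ + 1).multichoose (l - d * b) : ℕ) : ℝ≥0∞) := by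
          rw [← Summable.tsum_finsetSum (fun _ _ => ENNReal.summable)]
          refine tsum_congr fun l => ?_
          rw [Nat.cast_sum, Finset.mul_sum]
      _ = _ := Finset.sum_congr rfl fun k _ => tsum_count d hd _ _ Q hQ
  calc _ ≤ (1 - Q) ^ (Fintype.card σ + 1) * (1 - Q ^ d) ^ (Fintype.card E) *
        ∑ k, ((1 - Q ^ d) ^ (Fintype.card E - #(forb k)))⁻¹ *
          ((1 - Q) ^ (Fintype.card σ + 1))⁻¹ := by gcongr
    _ = ∑ k, (1 - Q ^ d) ^ #(forb k) := by
        rw [Finset.mul_sum]
        refine Finset.sum_congr rfl fun k _ => ?_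
        have hle : #(forb k) ≤ Fintype.card E := Finset.card_le_univ _
        have e : (1 - Q ^ d) ^ (Fintype.card E) = (1 - Q ^ d) ^ #(forb k) *
            (1 - Q ^ d) ^ (Fintype.card E - #(forb k)) := by
          rw [← pow_add, Nat.add_sub_cancel' hle]
        rw [e]
        calc (1 - Q) ^ (Fintype.card σ + 1) * ((1 - Q ^ d) ^ #(forb k) *
              (1 - Q ^ d) ^ (Fintype.card E - #(forb k))) *
              (((1 - Q ^ d) ^ (Fintype.card E - #(forb k)))⁻¹ *
              ((1 - Q) ^ (Fintype.card σ + 1))⁻¹)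
            = ((1 - Q) ^ (Fintype.card σ + 1) * ((1 - Q) ^ (Fintype.card σ + 1))⁻¹) *
              ((1 - Q ^ d) ^ (Fintype.card E - #(forb k)) *
                ((1 - Q ^ d) ^ (Fintype.card E - #(forb k)))⁻¹) * (1 - Q ^ d) ^ #(forb k) := by
              ring
          _ = _ := by
              rw [ENNReal.mul_inv_cancel (pow_ne_zero _ h10) (ENNReal.pow_ne_top h1t),
                ENNReal.mul_inv_cancel (pow_ne_zero _ hd0) (ENNReal.pow_ne_top hdt), one_mul,
                one_mul]

end upper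

section cancel

variable {K : Type*} [Field K] {σ E κ : Type*}

/-- polynomials as polynomials in the second variables -/
noncomputable def toIt (K : Type*) [Field K] (σ E : Type*) :
    MvPolynomial (σ ⊕ E) K →ₐ[K] MvPolynomial E (MvPolynomial σ K) :=
  aeval (Sum.elim (fun s => C (X s)) (fun e => X e))

lemma toIt_inl (g : MvPolynomial σ K) : toIt K σ E (rename Sum.inl g) = C g := by
  have h : (toIt K σ E).comp (rename Sum.inl) =
      (IsScalarTower.toAlgHom K (MvPolynomial σ K) (MvPolynomial E (MvPolynomial σ K))) := by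
    apply MvPolynomial.algHom_ext
    intro s
    simp [toIt, algebraMap_eq]
  have h2 := DFunLike.congr_fun h g
  simpa [algebraMap_eq] using h2

lemma toIt_inr (v : E →₀ ℕ) : toIt K σ E (rename Sum.inr (monomial v (1 : K))) = monomial v 1 := by
  rw [toIt, aeval_rename, aeval_monomial, map_one, one_mul, monomial_eq, C_1, one_mul]
  rfl

/-- multiplication by a monomial in the second variables, as a linear map -/
noncomputable def mulM (K : Type*) [Field K] (σ E : Type*) (v : E →₀ ℕ) :
    MvPolynomial σ K →ₗ[K] MvPolynomial (σ ⊕ E) K :=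
  (LinearMap.mulLeft K (rename (Sum.inr : E → σ ⊕ E) (monomial v (1 : K)))).comp
    (rename (Sum.inl : σ → σ ⊕ E)).toLinearMap

lemma coeff_toIt_mulM [DecidableEq E] (v v' : E →₀ ℕ) (g : MvPolynomial σ K) :
    coeff v' (toIt K σ E (mulM K σ E v g)) = if v = v' then g else 0 := by
  have h : toIt K σ E (mulM K σ E v g) = monomial v 1 * C g := by
    simp only [mulM, LinearMap.comp_apply, LinearMap.mulLeft_apply, AlgHom.toLinearMap_apply,
      map_mul, toIt_inl, toIt_inr]
  rw [h, mul_comm, C_mul_monomial, mul_one, coeff_monomial]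

lemma mulM_mem {f : κ → MvPolynomial σ K} {d i l : ℕ} (v : E →₀ ℕ) (hv : i + d * v.degree ≤ l)
    (g : MvPolynomial σ K) (hg : g ∈ mulSpan (fun _ => 1) i f) :
    mulM K σ E v g ∈ mulSpan (wt σ E d) l (fun k => rename (Sum.inl : σ → σ ⊕ E) (f k)) := by
  have h := Submodule.mem_map_of_mem (f := mulM K σ E v) hg
  unfold Pool.Agent.Helper41.SD.mulSpan at h ⊢
  rw [Submodule.map_span] at h
  refine Submodule.span_mono ?_ h
  rintro _ ⟨_, ⟨u, k, hu, rfl⟩, rfl⟩
  refine ⟨u.mapDomain Sum.inl + v.mapDomain Sum.inr, k, ?_, ?_⟩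
  · rw [map_add, weight_mapDomain_inl, weight_mapDomain_inr]
    have : u.degree ≤ i := by
      refine le_of_eq_of_le ?_ hu
      rw [Finsupp.weight_apply, Finsupp.degree_apply, Finsupp.sum]
      simp
    omega
  · simp only [mulM, LinearMap.comp_apply, LinearMap.mulLeft_apply, AlgHom.toLinearMap_apply,
      map_mul, rename_monomial]
    rw [← mul_assoc, monomial_mul, one_mul, add_comm]

variable [Fintype σ] [Fintype E] [Fintype κ]

/-- (P5) the new variables are free: lower bound for the dimension with the new variables -/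
theorem sum_finrank_le (f : κ → MvPolynomial σ K) (d l : ℕ) (hd : 1 ≤ d) :
    ∑ b ∈ (Finset.range (l + 1)).filter (fun b => d * b ≤ l),
      (Fintype.card E).multichoose b *
        Module.finrank K (mulSpan (fun _ => 1) (l - d * b) f) ≤
      Module.finrank K (mulSpan (wt σ E d) l (fun k => rename (Sum.inl : σ → σ ⊕ E) (f k))) := by
  classical
  have hfin : ∀ i, Module.Finite K (mulSpan (fun _ => 1) i f) := fun i =>
    finite_mulSpan (fun _ => one_ne_zero) f
  have hfin2 : Module.Finite K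
      (mulSpan (wt σ E d) l (fun k => rename (Sum.inl : σ → σ ⊕ E) (f k))) :=
    finite_mulSpan (wt_ne_zero hd) _
  let N : Finset (E →₀ ℕ) := ((Finset.range (l + 1)).filter (fun b => d * b ≤ l)).biUnion
    fun b => (Finset.univ : Finset E).finsuppAntidiag b
  have hdeg : ∀ v : E →₀ ℕ, ∀ b, v ∈ (Finset.univ : Finset E).finsuppAntidiag b ↔ v.degree = b := by
    intro v b
    rw [Finset.mem_finsuppAntidiag, Finsupp.degree_apply]
    constructor
    · rintro ⟨h1, -⟩
      rw [← h1]
      exact Finset.sum_subset (Finset.subset_univ _) fun x _ hx => by simpa using hx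
    · intro h
      refine ⟨?_, Finset.subset_univ _⟩
      rw [← h]
      exact (Finset.sum_subset (Finset.subset_univ _) fun x _ hx => by simpa using hx).symm
  have hN : ∀ v ∈ N, d * v.degree ≤ l := by
    intro v hv
    simp only [N, Finset.mem_biUnion, Finset.mem_filter] at hv
    obtain ⟨b, ⟨_, hb⟩, hvb⟩ := hv
    rw [(hdeg v b).1 hvb]; exact hb
  have hsum : ∑ v ∈ N, Module.finrank K (mulSpan (fun _ => 1) (l - d * v.degree) f) =
      ∑ b ∈ (Finset.range (l + 1)).filter (fun b => d * b ≤ l),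
      (Fintype.card E).multichoose b *
        Module.finrank K (mulSpan (fun _ => 1) (l - d * b) f) := by
    rw [Finset.sum_biUnion]
    · refine Finset.sum_congr rfl fun b _ => ?_
      rw [Finset.sum_congr rfl (g := fun _ => Module.finrank K (mulSpan (fun _ => 1) (l - d * b) f))
        (fun v hv => by rw [(hdeg v b).1 hv]), Finset.sum_const, smul_eq_mul,
        Finset.card_finsuppAntidiag_nat_eq_multichoose, Finset.card_univ]
    · intro b _ b' _ hbb'
      rw [Function.onFun, Finset.disjoint_left]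
      intro v hv hv'
      exact hbb' (((hdeg v b).1 hv).symm.trans ((hdeg v b').1 hv'))
  rw [← hsum]
  have h1 : ∑ v ∈ N, Module.finrank K (mulSpan (fun _ => 1) (l - d * v.degree) f) =
      Module.finrank K ((v : N) → mulSpan (fun _ => 1) (l - d * (v : E →₀ ℕ).degree) f) := by
    rw [Module.finrank_pi_fintype, ← Finset.sum_coe_sort]
  rw [h1]
  let T : ((v : N) → mulSpan (fun _ => 1) (l - d * (v : E →₀ ℕ).degree) f) →ₗ[K]
      MvPolynomial (σ ⊕ E) K :=
    ∑ v : N, (mulM K σ E (v : E →₀ ℕ)).comp ((Submodule.subtype _).comp (LinearMap.proj v))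
  have hT : ∀ x, T x = ∑ v : N, mulM K σ E (v : E →₀ ℕ) (x v : MvPolynomial σ K) := by
    intro x
    simp [T, LinearMap.sum_apply]
  have hmem : ∀ x, T x ∈ mulSpan (wt σ E d) l (fun k => rename (Sum.inl : σ → σ ⊕ E) (f k)) := by
    intro x
    rw [hT]
    refine Submodule.sum_mem _ fun v _ => mulM_mem (i := l - d * (v : E →₀ ℕ).degree) _ ?_ _ (x v).2
    have := hN v v.2
    omega
  let T' := T.codRestrict _ hmem
  refine LinearMap.finrank_le_finrank_of_injective (f := T') ?_
  rw [← LinearMap.ker_eq_bot, LinearMap.ker_eq_bot']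
  intro x hx
  have hx' : T x = 0 := congrArg Subtype.val hx
  funext v0
  apply Subtype.ext
  have h2 := congrArg (fun t => coeff (v0 : E →₀ ℕ) (toIt K σ E t)) hx'
  simp only [hT, map_sum, coeff_sum, coeff_toIt_mulM, map_zero, coeff_zero] at h2
  rw [Finset.sum_eq_single v0] at h2
  · simpa using h2
  · intro v _ hv
    rw [if_neg fun h => hv (Subtype.ext h)]
  · intro h; exact absurd (Finset.mem_univ _) h

/-- (UW2) side (U), no new variables left -/
theorem UW2 (P : κ → MvPolynomial E K) (forb : κ → Finset E)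
    (hred : Straight P forb) (d : ℕ) (hd : 1 ≤ d) (A : E → MvPolynomial σ K)
    (hA : ∀ e, (A e).totalDegree ≤ d) (Q : ℝ≥0∞) (hQ : Q < 1) :
    (1 - Q) ^ (Fintype.card σ + 1) * ∑' l, Q ^ l *
      (Module.finrank K (mulSpan (fun _ => 1) l (fun k => aeval A (P k))) : ℝ≥0∞) ≤
      ∑ k, (1 - Q ^ d) ^ #(forb k) := by
  classical
  have hQd : Q ^ d < 1 := pow_lt_one₀ zero_le hQ (by omega)
  have hd0 : (1 : ℝ≥0∞) - Q ^ d ≠ 0 := (tsub_pos_of_lt hQd).ne'
  have hdt : (1 : ℝ≥0∞) - Q ^ d ≠ ∞ := (tsub_le_self.trans_lt ENNReal.one_lt_top).ne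
  refine le_trans ?_ (UW1 (σ := σ) P forb hred d hd Q hQ)
  have h1 : ((1 - Q ^ d) ^ (Fintype.card E))⁻¹ * ∑' l, Q ^ l *
      (Module.finrank K (mulSpan (fun _ => 1) l (fun k => aeval A (P k))) : ℝ≥0∞) ≤
      ∑' l, Q ^ l * (Module.finrank K (mulSpan (wt σ E d) l
        (fun k => rename (Sum.inr : E → σ ⊕ E) (P k))) : ℝ≥0∞) := by
    rw [← tsum_multichoose (Fintype.card E) (Q ^ d) hQd, ← tsum_conv _ _ Q hd]
    refine ENNReal.tsum_le_tsum fun l => ?_
    gcongr
    have h2 := sum_finrank_le (E := E) (fun k => aeval A (P k)) d l hd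
    have h3 := finrank_mulSpan_le (wt σ E d) (wt_ne_zero hd) A
      (fun e => Wle_one_of_totalDegree_le (hA e)) P l
    have h4 := h2.trans h3
    exact_mod_cast h4
  have e : (1 : ℝ≥0∞) = (1 - Q ^ d) ^ (Fintype.card E) * ((1 - Q ^ d) ^ (Fintype.card E))⁻¹ :=
    (ENNReal.mul_inv_cancel (pow_ne_zero _ hd0) (ENNReal.pow_ne_top hdt)).symm
  calc (1 - Q) ^ (Fintype.card σ + 1) * ∑' l, Q ^ l *
      (Module.finrank K (mulSpan (fun _ => 1) l (fun k => aeval A (P k))) : ℝ≥0∞)
      = (1 - Q) ^ (Fintype.card σ + 1) * (((1 - Q ^ d) ^ (Fintype.card E) *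
        ((1 - Q ^ d) ^ (Fintype.card E))⁻¹) * ∑' l, Q ^ l *
      (Module.finrank K (mulSpan (fun _ => 1) l (fun k => aeval A (P k))) : ℝ≥0∞)) := by
        rw [← e, one_mul]
    _ = (1 - Q) ^ (Fintype.card σ + 1) * (1 - Q ^ d) ^ (Fintype.card E) *
        (((1 - Q ^ d) ^ (Fintype.card E))⁻¹ * ∑' l, Q ^ l *
      (Module.finrank K (mulSpan (fun _ => 1) l (fun k => aeval A (P k))) : ℝ≥0∞)) := by ring
    _ ≤ _ := by gcongr

/-- (UW2) with named values -/
theorem UW2' (P : κ → MvPolynomial E K) (forb : κ → Finset E)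
    (hred : Straight P forb) (d : ℕ) (hd : 1 ≤ d) (A : E → MvPolynomial σ K)
    (hA : ∀ e, (A e).totalDegree ≤ d) (f : κ → MvPolynomial σ K) (hf : ∀ k, aeval A (P k) = f k)
    (Q : ℝ≥0∞) (hQ : Q < 1) :
    (1 - Q) ^ (Fintype.card σ + 1) * ∑' l, Q ^ l *
      (Module.finrank K (mulSpan (fun _ => 1) l f) : ℝ≥0∞) ≤
      ∑ k, (1 - Q ^ d) ^ #(forb k) := by
  obtain rfl : (fun k => aeval A (P k)) = f := funext hf
  exact UW2 P forb hred d hd A hA Q hQ

end cancel

end Pool.Agent.Helper90.SD
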