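import Pool.Agent.Helper90.SD.M1

/-!
Project SDET, side (U) for the generic matrix: generating function inequality.
-/

namespace Pool.Agent.Helper90.SD

open MvPolynomial Finset
open scoped ENNReal

/-- `∑ l, Q^l * multichoose n l = (1-Q)^(-n)` in `ENNReal` -/
theorem tsum_multichoose (n : ℕ) (Q : ℝ≥0∞) (hQ : Q < 1) :
    ∑' l : ℕ, Q ^ l * ((n.multichoose l : ℕ) : ℝ≥0∞) = ((1 - Q) ^ n)⁻¹ := by
  rcases n with _ | n
  · rw [tsum_eq_single 0]
    · simp
    · intro l hl
      obtain ⟨l, rfl⟩ := Nat.exists_eq_succ_of_ne_zero hl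
      simp [Nat.multichoose_zero_succ]
  · have hQt : Q ≠ ∞ := (hQ.trans_le le_top).ne
    set q : ℝ := Q.toReal with hq
    have hq0 : 0 ≤ q := ENNReal.toReal_nonneg
    have hq1 : q < 1 := by
      rw [hq, ← ENNReal.toReal_one]
      exact (ENNReal.toReal_lt_toReal hQt ENNReal.one_ne_top).2 hQ
    have hQq : Q = ENNReal.ofReal q := (ENNReal.ofReal_toReal hQt).symm
    have hnorm : ‖q‖ < 1 := by rw [Real.norm_of_nonneg hq0]; exact hq1
    have h1 := tsum_choose_mul_geometric_of_norm_lt_one n hnorm
    have hsum := summable_choose_mul_geometric_of_norm_lt_one n hnorm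
    have h2 : ∀ l : ℕ, Q ^ l * (((n + 1).multichoose l : ℕ) : ℝ≥0∞) =
        ENNReal.ofReal (((l + n).choose n : ℕ) * q ^ l) := by
      intro l
      have e : (n + 1).multichoose l = (l + n).choose n := by
        rw [Nat.multichoose_eq, show n + 1 + l - 1 = l + n by omega, ← Nat.choose_symm_add]
      rw [e, ENNReal.ofReal_mul (by positivity), ENNReal.ofReal_pow hq0, ENNReal.ofReal_natCast,
        hQq, mul_comm]
    simp_rw [h2]
    rw [← ENNReal.ofReal_tsum_of_nonneg (fun l => by positivity) hsum, h1]
    have h3 : (1 : ℝ≥0∞) - Q = ENNReal.ofReal (1 - q) := by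
      rw [hQq, ENNReal.ofReal_sub _ hq0, ENNReal.ofReal_one]
    rw [h3, ← ENNReal.ofReal_pow (by linarith), one_div, ENNReal.ofReal_inv_of_pos
      (by have : 0 < 1 - q := by linarith
          positivity)]

variable {K : Type*} [Field K] {m k : ℕ} {τ : Type*} [Fintype τ] [DecidableEq τ]

omit [DecidableEq τ] in
lemma rho_add_rho_le_card {c : Fin m × Fin m → τ} (hc : Function.Injective c)
    (f g : Fin k ↪o Fin m) : rho f + rho g ≤ Fintype.card τ := by
  refine (rho_add_rho_le f g).trans ?_
  refine (Finset.card_le_univ _).trans ?_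
  exact Fintype.card_le_of_injective c hc

/-- side (U) for the generic matrix -/
theorem sideU_generic {c : Fin m × Fin m → τ} (hc : Function.Injective c) (Q : ℝ≥0∞) (hQ : Q < 1) :
    (1 - Q) ^ (Fintype.card τ + 1) *
      ∑' l : ℕ, Q ^ l * (Module.finrank K (Submodule.span K (productSetLe K k c l)) : ℝ≥0∞) ≤
      (∑ f : Fin k ↪o Fin m, (1 - Q) ^ rho f) ^ 2 := by
  classical
  have h10 : (1 : ℝ≥0∞) - Q ≠ 0 := (tsub_pos_of_lt hQ).ne'
  have h1t : (1 : ℝ≥0∞) - Q ≠ ∞ := (tsub_le_self.trans_lt ENNReal.one_lt_top).ne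
  set N := Fintype.card τ with hN
  have hstep : ∑' l : ℕ, Q ^ l * (Module.finrank K (Submodule.span K (productSetLe K k c l)) : ℝ≥0∞)
      ≤ ∑ f : Fin k ↪o Fin m, ∑ g : Fin k ↪o Fin m, ((1 - Q) ^ (N - (rho f + rho g) + 1))⁻¹ := by
    calc ∑' l : ℕ, Q ^ l * (Module.finrank K (Submodule.span K (productSetLe K k c l)) : ℝ≥0∞)
        ≤ ∑' l : ℕ, ∑ f : Fin k ↪o Fin m, ∑ g : Fin k ↪o Fin m,
            Q ^ l * (((N - (rho f + rho g) + 1).multichoose l : ℕ) : ℝ≥0∞) := by
          refine ENNReal.tsum_le_tsum fun l => ?_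
          have h := finrank_span_productSetLe_le (K := K) (k := k) hc l
          have h' : (Module.finrank K (Submodule.span K (productSetLe K k c l))) ≤
              ∑ f : Fin k ↪o Fin m, ∑ g : Fin k ↪o Fin m,
                (N - (rho f + rho g) + 1).multichoose l := by
            refine h.trans (le_of_eq ?_)
            rw [Finset.sum_comm]
            refine Finset.sum_congr rfl fun f _ => ?_
            rw [Finset.sum_comm]
            refine Finset.sum_congr rfl fun g _ => ?_
            rw [Nat.sum_range_multichoose, Nat.multichoose_eq, ← hN,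
              show N - (rho f + rho g) + 1 + l - 1 = N - (rho f + rho g) + l by omega,
              add_comm l, Nat.choose_symm_add]
          calc Q ^ l * (Module.finrank K (Submodule.span K (productSetLe K k c l)) : ℝ≥0∞)
              ≤ Q ^ l * ((∑ f : Fin k ↪o Fin m, ∑ g : Fin k ↪o Fin m,
                (N - (rho f + rho g) + 1).multichoose l : ℕ) : ℝ≥0∞) := by
                gcongr
            _ = _ := by
                push_cast
                rw [Finset.mul_sum]
                refine Finset.sum_congr rfl fun f _ => ?_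
                rw [Finset.mul_sum]
      _ = ∑ f : Fin k ↪o Fin m, ∑ g : Fin k ↪o Fin m, ∑' l : ℕ,
            Q ^ l * (((N - (rho f + rho g) + 1).multichoose l : ℕ) : ℝ≥0∞) := by
          rw [Summable.tsum_finsetSum (fun _ _ => ENNReal.summable)]
          refine Finset.sum_congr rfl fun f _ => ?_
          rw [Summable.tsum_finsetSum (fun _ _ => ENNReal.summable)]
      _ = _ := by
          refine Finset.sum_congr rfl fun f _ => Finset.sum_congr rfl fun g _ => ?_
          rw [tsum_multichoose _ Q hQ]
  calc (1 - Q) ^ (N + 1) *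
      ∑' l : ℕ, Q ^ l * (Module.finrank K (Submodule.span K (productSetLe K k c l)) : ℝ≥0∞)
      ≤ (1 - Q) ^ (N + 1) * ∑ f : Fin k ↪o Fin m, ∑ g : Fin k ↪o Fin m,
          ((1 - Q) ^ (N - (rho f + rho g) + 1))⁻¹ := by gcongr
    _ = ∑ f : Fin k ↪o Fin m, ∑ g : Fin k ↪o Fin m, (1 - Q) ^ rho f * (1 - Q) ^ rho g := by
        rw [Finset.mul_sum]
        refine Finset.sum_congr rfl fun f _ => ?_
        rw [Finset.mul_sum]
        refine Finset.sum_congr rfl fun g _ => ?_
        have hle := rho_add_rho_le_card hc f g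
        have e : N + 1 = (rho f + rho g) + (N - (rho f + rho g) + 1) := by omega
        rw [e, pow_add, mul_assoc, ENNReal.mul_inv_cancel, mul_one, pow_add]
        · exact pow_ne_zero _ h10
        · exact ENNReal.pow_ne_top h1t
    _ = _ := by rw [sq, Finset.sum_mul_sum]

/-- minors with arbitrary rows and columns are minors with increasing rows and columns, up to sign -/
theorem det_submatrix_mem {R : Type*} [CommRing R] (A : Matrix (Fin m) (Fin m) R)
    (f g : Fin k → Fin m) :
    (A.submatrix f g).det = 0 ∨ ∃ (f' g' : Fin k ↪o Fin m),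
      (A.submatrix f g).det = (A.submatrix f' g').det ∨
      (A.submatrix f g).det = -(A.submatrix f' g').det := by
  classical
  by_cases hf : Function.Injective f
  swap
  · left
    rw [Function.not_injective_iff] at hf
    obtain ⟨a, b, h1, h2⟩ := hf
    exact Matrix.det_zero_of_row_eq h2 (by ext j; simp [h1])
  by_cases hg : Function.Injective g
  swap
  · left
    rw [Function.not_injective_iff] at hg
    obtain ⟨a, b, h1, h2⟩ := hg
    exact Matrix.det_zero_of_column_eq h2 (by intro j; simp [h1])
  right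
  have key : ∀ h : Fin k → Fin m, Function.Injective h →
      ∃ (h' : Fin k ↪o Fin m) (σ : Equiv.Perm (Fin k)), h = h' ∘ σ := by
    intro h hh
    let S : Finset (Fin m) := Finset.univ.image h
    have hS : #S = k := by
      rw [Finset.card_image_of_injective _ hh, Finset.card_univ, Fintype.card_fin]
    let e := S.orderEmbOfFin hS
    have hmem : ∀ i, ∃ j, e j = h i := by
      intro i
      have : h i ∈ Set.range e := by
        rw [Finset.range_orderEmbOfFin]
        exact Finset.mem_coe.2 (Finset.mem_image_of_mem _ (Finset.mem_univ _))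
      exact this
    choose σ hσ using hmem
    have hinj : Function.Injective σ := by
      intro a b hab
      apply hh
      rw [← hσ a, ← hσ b, hab]
    refine ⟨e, Equiv.ofBijective σ (Finite.injective_iff_bijective.1 hinj), ?_⟩
    ext i
    simp [hσ]
  obtain ⟨f', σ, hfσ⟩ := key f hf
  obtain ⟨g', τ', hgτ⟩ := key g hg
  refine ⟨f', g', ?_⟩
  have h1 : A.submatrix f g = ((A.submatrix f' g').submatrix σ τ') := by
    rw [hfσ, hgτ]; rfl
  have h2 : (A.submatrix f g).det =
      ((Equiv.Perm.sign σ : ℤ) : R) * (((Equiv.Perm.sign τ' : ℤ) : R) * (A.submatrix f' g').det) := by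
    rw [h1]
    have e1 : (A.submatrix f' g').submatrix σ τ' =
        ((A.submatrix f' g').submatrix id τ').submatrix σ id := rfl
    rw [e1, Matrix.det_permute, Matrix.det_permute']
  rw [h2]
  rcases Int.units_eq_one_or (Equiv.Perm.sign σ) with hs | hs <;>
    rcases Int.units_eq_one_or (Equiv.Perm.sign τ') with ht | ht <;> simp [hs, ht]

end Pool.Agent.Helper90.SD
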