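import Pool.Agent.Helper91.SD.Num

/-!
Sums of determinants with coefficient matrices of small rank (or of small size): the choice of the
parameters (row RO5).
-/

namespace Pool.Agent.Helper90.SD.RO

open Real Pool.SDN

/-- elementary bounds for `q = exp (-(log t) / N)` -/
lemma q_bounds {t N : ℕ} (ht : 3 ≤ t) (hN : (t : ℝ) * log t ≤ N) {q : ℝ}
    (hq : q = exp (-(log t / N))) :
    0 < q ∧ q < 1 ∧ q ^ N = 1 / t ∧ q ^ (N - (t - 1)) ≤ exp 1 / t ∧ 1 - q ≤ log t / N ∧
      log t / N / 2 ≤ 1 - q ∧ t ≤ N := by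
  have ht' : (3 : ℝ) ≤ t := by exact_mod_cast ht
  have ht0 : (0 : ℝ) < t := by linarith
  have he : exp 1 < 3 := lt_trans exp_one_lt_d9 (by norm_num)
  have hlog : 1 ≤ log t := by
    rw [le_log_iff_exp_le ht0]
    linarith
  have hN0 : (0 : ℝ) < N := by nlinarith
  have htN : t ≤ N := by
    have : (t : ℝ) ≤ N := by nlinarith
    exact_mod_cast this
  have hx0 : 0 < log t / N := by positivity
  have hx1 : log t / N ≤ 1 := by
    rw [div_le_one hN0]
    nlinarith
  have hq0 : 0 < q := by rw [hq]; exact exp_pos _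
  have hqN : q ^ N = 1 / t := by
    rw [hq, ← exp_nat_mul]
    have : (N : ℝ) * -(log t / N) = - log t := by field_simp
    rw [this, exp_neg, exp_log ht0, one_div]
  refine ⟨hq0, ?_, hqN, ?_, ?_, ?_, htN⟩
  · rw [hq, exp_lt_one_iff]
    linarith
  · have h1 : q ^ (N - (t - 1)) * q ^ (t - 1) = 1 / t := by
      rw [← pow_add, ← hqN]
      congr 1
      omega
    have h2 : exp (-1) ≤ q ^ (t - 1) := by
      rw [hq, ← exp_nat_mul, exp_le_exp]
      have h3 : ((t - 1 : ℕ) : ℝ) ≤ t := by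
        have : t - 1 ≤ t := by omega
        exact_mod_cast this
      have h4 : ((t - 1 : ℕ) : ℝ) * (log t / N) ≤ 1 := by
        calc ((t - 1 : ℕ) : ℝ) * (log t / N) ≤ t * (log t / N) := by gcongr
          _ = t * log t / N := by ring
          _ ≤ 1 := by rw [div_le_one hN0]; exact hN
      linarith
    have h5 : 0 < q ^ (N - (t - 1)) := pow_pos hq0 _
    have h6 : q ^ (N - (t - 1)) * exp (-1) ≤ 1 / t :=
      (mul_le_mul_of_nonneg_left h2 h5.le).trans h1.le
    rw [exp_neg, ← div_eq_mul_inv, div_le_iff₀ (exp_pos 1)] at h6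
    calc q ^ (N - (t - 1)) ≤ 1 / t * exp 1 := h6
      _ = exp 1 / t := by ring
  · have := add_one_le_exp (-(log t / N))
    rw [hq]
    linarith
  · have h1 : q * (1 + log t / N) ≤ 1 := by
      have h2 := add_one_le_exp (log t / N)
      have h3 : q * exp (log t / N) = 1 := by
        rw [hq, ← exp_add]
        simp
      nlinarith
    nlinarith

/-- `1 - (1 - 1/t)^t` is at least `3/5` -/
lemma one_sub_pow_ge {t : ℕ} (ht : 1 ≤ t) : (3 / 5 : ℝ) ≤ 1 - (1 - 1 / t) ^ t := by
  have ht' : (1 : ℝ) ≤ t := by exact_mod_cast ht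
  have ht0 : (0 : ℝ) < t := by linarith
  have h1 : 1 - 1 / (t : ℝ) ≤ exp (-(1 / t)) := by
    have := add_one_le_exp (-(1 / (t : ℝ)))
    linarith
  have h2 : 0 ≤ 1 - 1 / (t : ℝ) := by
    rw [sub_nonneg, div_le_one ht0]
    exact ht'
  have h3 : (1 - 1 / (t : ℝ)) ^ t ≤ exp (-1) := by
    calc (1 - 1 / (t : ℝ)) ^ t ≤ (exp (-(1 / t))) ^ t := pow_le_pow_left₀ h2 h1 _
      _ = exp (-1) := by
        rw [← exp_nat_mul]
        congr 1
        field_simp
  have h4 : exp (-1 : ℝ) ≤ 2 / 5 := by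
    rw [exp_neg, inv_le_comm₀ (exp_pos _) (by norm_num)]
    have := exp_one_gt_d9
    linarith
  linarith

/-- **The numerical part for small rank.** -/
theorem numerics {n m ρ r : ℕ} (hn : 1 ≤ n) (hρ : 1 ≤ ρ) (hr : 1 ≤ r)
    (H : ∀ D N a : ℕ, 1 ≤ D → a < N → D * (4 * N + 2 * a + 1) ≤ n → ∀ q : ℝ, 0 < q → q < 1 →
      q ^ (a * (2 * D)) * (1 - (1 - q ^ N) ^ (a + 1)) ^ (2 * D) ≤
        r * q ^ ((N - a) * (2 * D)) *
          (∑ j ∈ Finset.range (D + 1),
            (Nat.choose (max m (ρ * (D * (2 * N + (a + 1) ^ 2))) - D - 1 + j) j : ℝ) *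
              (1 - q) ^ j) ^ 2) :
    exp (log 2 / (4050 * exp 9) * n / (ρ * max ((m : ℝ) / n) ρ *
      (1 + log (max ((m : ℝ) / n) ρ)) ^ 2)) ≤ 2 * r := by
  have hn' : (1 : ℝ) ≤ n := by exact_mod_cast hn
  have hn0 : (0 : ℝ) < n := by linarith
  have hρ' : (1 : ℝ) ≤ ρ := by exact_mod_cast hρ
  have hρ0 : (0 : ℝ) < ρ := by linarith
  have hr' : (1 : ℝ) ≤ r := by exact_mod_cast hr
  set μ : ℝ := max ((m : ℝ) / n) ρ with hμ
  have hμρ : (ρ : ℝ) ≤ μ := le_max_right _ _
  have hμm : (m : ℝ) / n ≤ μ := le_max_left _ _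
  have hμ1 : 1 ≤ μ := hρ'.trans hμρ
  have hμ0 : 0 < μ := by linarith
  set Λ : ℝ := 1 + log μ with hΛ
  have hΛ1 : 1 ≤ Λ := by
    have := log_nonneg hμ1
    linarith
  have hΛ0 : 0 < Λ := by linarith
  have h9 := exp_nine
  have h90 := exp_pos 9
  have hμΛ : 1 ≤ μ * Λ := by nlinarith
  set T : ℝ := exp 9 / 2 * (μ * Λ) with hT
  have hT1 : 3500 ≤ T := by
    rw [hT]
    nlinarith
  set t : ℕ := ⌈T⌉₊ with ht
  have htT : T ≤ t := Nat.le_ceil T
  have htT' : (t : ℝ) ≤ exp 9 * (μ * Λ) := by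
    have h1 : (t : ℝ) < T + 1 := Nat.ceil_lt_add_one (by linarith)
    have h2 : exp 9 * (μ * Λ) = 2 * T := by rw [hT]; ring
    rw [h2]
    linarith
  have hμt : 3500 * (μ * Λ) ≤ t := by
    refine le_trans ?_ htT
    rw [hT]
    nlinarith
  have ht3' : (3500 : ℝ) ≤ t := by linarith
  have ht3 : 3 ≤ t := by
    have : (3 : ℝ) ≤ t := by linarith
    exact_mod_cast this
  have ht0 : (0 : ℝ) < t := by linarith
  have hlog : 1 + log t ≤ 10 * Λ := by
    have h1 : log t ≤ log (exp 9 * (μ * Λ)) := log_le_log ht0 htT'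
    rw [log_mul (exp_pos 9).ne' (mul_pos hμ0 hΛ0).ne', log_exp, log_mul hμ0.ne' hΛ0.ne'] at h1
    have h2 : log Λ ≤ Λ - 1 := log_le_sub_one_of_pos hΛ0
    have h3 : log μ = Λ - 1 := by rw [hΛ]; ring
    linarith
  have he3 : exp 1 < 3 := lt_trans exp_one_lt_d9 (by norm_num)
  have hlog1 : 1 ≤ log t := by
    rw [le_log_iff_exp_le ht0]
    linarith
  set N : ℕ := ⌈80 * (ρ * (t * log t))⌉₊ with hN
  have hN1 : 80 * (ρ * (t * log t)) ≤ N := Nat.le_ceil _
  have htl : (1 : ℝ) ≤ t * log t := by nlinarith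
  have hρtl : (1 : ℝ) ≤ ρ * (t * log t) := by nlinarith
  have hN2 : (N : ℝ) ≤ 81 * (ρ * (t * log t)) := by
    have h1 : (N : ℝ) < 80 * (ρ * (t * log t)) + 1 := Nat.ceil_lt_add_one (by linarith)
    linarith
  have htlN : (t : ℝ) * log t ≤ N := by nlinarith
  obtain ⟨hq0, hq1, hqN, hqa, h1q, h1q', htN⟩ := q_bounds ht3 htlN rfl
  set q : ℝ := exp (-(log t / N)) with hq
  have hN0 : (0 : ℝ) < N := by linarith
  set s : ℕ := 4 * N + 2 * (t - 1) + 1 with hs
  have hs1 : (s : ℝ) ≤ 5 * N := by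
    have h1 : (s : ℝ) = 4 * N + 2 * (t - 1) + 1 := by
      rw [hs]
      push_cast [Nat.cast_sub (show 1 ≤ t by omega)]
      ring
    have h2 : 2 * (t : ℝ) ≤ N := by nlinarith
    rw [h1]
    linarith
  have hs2 : (s : ℝ) ≤ 4050 * exp 9 * (ρ * μ * Λ ^ 2) := by
    calc (s : ℝ) ≤ 5 * (81 * (ρ * (t * log t))) := by linarith
      _ ≤ 5 * (81 * (ρ * ((exp 9 * (μ * Λ)) * (10 * Λ)))) := by
        have := mul_le_mul htT' (show log t ≤ 10 * Λ by linarith) (by linarith) (by positivity)
        gcongr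
      _ = 4050 * exp 9 * (ρ * μ * Λ ^ 2) := by ring
  have hs0 : (0 : ℝ) < s := by
    have : 0 < s := by omega
    exact_mod_cast this
  have hE : log 2 / (4050 * exp 9) * n / (ρ * μ * Λ ^ 2) =
      log 2 * (n / (4050 * exp 9 * (ρ * μ * Λ ^ 2))) := by
    field_simp
  have hln2 : 0 < log 2 := log_pos (by norm_num)
  have hns : (n : ℝ) / (4050 * exp 9 * (ρ * μ * Λ ^ 2)) ≤ n / s :=
    div_le_div_of_nonneg_left hn0.le hs0 hs2
  rw [hE]
  set D : ℕ := n / s with hD
  rcases Nat.eq_zero_or_pos D with hD0 | hD0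
  · have h1 : n < s := by
      have h2 := Nat.lt_div_mul_add (a := n) (b := s) (by omega)
      rw [← hD, hD0] at h2
      omega
    have h2 : (n : ℝ) / s ≤ 1 := by
      rw [div_le_one hs0]
      exact_mod_cast h1.le
    calc exp (log 2 * (n / (4050 * exp 9 * (ρ * μ * Λ ^ 2)))) ≤ exp (log 2 * 1) := by
          rw [exp_le_exp]
          exact mul_le_mul_of_nonneg_left (hns.trans h2) hln2.le
      _ = 2 := by rw [mul_one, exp_log (by norm_num)]
      _ ≤ 2 * r := by linarith
  · have hDn : D * s ≤ n := Nat.div_mul_le_self n s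
    have hDn' : n < (D + 1) * s := by
      have h2 := Nat.lt_div_mul_add (a := n) (b := s) (by omega)
      rw [← hD] at h2
      linarith [add_mul D 1 s]
    have hD1 : (1 : ℝ) ≤ D := by exact_mod_cast hD0
    have hDr : (n : ℝ) ≤ 2 * D * s := by
      have h1 : (n : ℝ) < (D + 1) * s := by exact_mod_cast hDn'
      nlinarith
    have hDN : (n : ℝ) ≤ 10 * (D * N) := by nlinarith
    have hta : t - 1 + 1 = t := by omega
    have h1 := H D N (t - 1) hD0 (by omega) hDn q hq0 hq1
    rw [hta] at h1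
    set M : ℕ := max m (ρ * (D * (2 * N + t ^ 2))) with hM
    have hMρ : ρ * (D * (2 * N + t ^ 2)) ≤ M := le_max_right _ _
    have hMD : D < M := by
      have h2 : 1 * (D * (2 * N + t ^ 2)) ≤ ρ * (D * (2 * N + t ^ 2)) :=
        Nat.mul_le_mul_right _ hρ
      have h3 : D * 2 ≤ D * (2 * N + t ^ 2) := Nat.mul_le_mul_left D (by nlinarith)
      omega
    have hMq : (D : ℝ) ≤ M * (1 - q) := by
      have h2 : ((D * (2 * N) : ℕ) : ℝ) ≤ M := by
        have h3 : D * (2 * N) ≤ ρ * (D * (2 * N + t ^ 2)) := by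
          calc D * (2 * N) ≤ 1 * (D * (2 * N + t ^ 2)) := by
                rw [one_mul]; exact Nat.mul_le_mul_left D (by omega)
            _ ≤ _ := Nat.mul_le_mul_right _ hρ
        exact_mod_cast h3.trans hMρ
      push_cast at h2
      calc (D : ℝ) ≤ D * log t := by nlinarith
        _ = (D * (2 * N)) * (log t / N / 2) := by field_simp
        _ ≤ M * (1 - q) := mul_le_mul h2 h1q' (by positivity) (by positivity)
    have h2 := sum_choose_le hD0 hMD (x := 1 - q) (by linarith) hMq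
    have h3 : 0 ≤ ∑ j ∈ Finset.range (D + 1), (Nat.choose (M - D - 1 + j) j : ℝ) * (1 - q) ^ j :=
      Finset.sum_nonneg fun j _ => mul_nonneg (by positivity) (pow_nonneg (by linarith) _)
    set x : ℝ := exp 1 * (M * (1 - q)) / D with hx
    have hx0 : 0 ≤ x := by
      have : 0 ≤ 1 - q := by linarith
      positivity
    have h4 : (59 / 100 : ℝ) ^ (2 * D) ≤ r * ((exp 1 / t) * x) ^ (2 * D) := by
      have hqt : (79 / 80 : ℝ) ≤ q ^ (t - 1) := by
        have h31 : ((t - 1 : ℕ) : ℝ) ≤ t := by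
          have : t - 1 ≤ t := by omega
          exact_mod_cast this
        have h32 : ((t - 1 : ℕ) : ℝ) * (log t / N) ≤ 1 / 80 := by
          calc ((t - 1 : ℕ) : ℝ) * (log t / N) ≤ t * (log t / N) := by gcongr
            _ = t * log t / N := by ring
            _ ≤ 1 / 80 := by
              rw [div_le_iff₀ hN0]
              have : t * log t ≤ ρ * (t * log t) := by nlinarith
              linarith
        have h33 : q ^ (t - 1) = exp (-(((t - 1 : ℕ) : ℝ) * (log t / N))) := by
          rw [hq, ← exp_nat_mul]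
          congr 1
          ring
        have h34 := add_one_le_exp (-(((t - 1 : ℕ) : ℝ) * (log t / N)))
        rw [h33]
        linarith
      have h5 : (59 / 100 : ℝ) ^ (2 * D) ≤
          q ^ ((t - 1) * (2 * D)) * (1 - (1 - q ^ N) ^ t) ^ (2 * D) := by
        rw [hqN, pow_mul q (t - 1) (2 * D), ← mul_pow]
        have h35 := one_sub_pow_ge (t := t) (by omega)
        refine pow_le_pow_left₀ (by norm_num) ?_ _
        nlinarith
      have h6 : q ^ ((N - (t - 1)) * (2 * D)) ≤ (exp 1 / t) ^ (2 * D) := by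
        rw [pow_mul]
        exact pow_le_pow_left₀ (pow_pos hq0 _).le hqa _
      have h7 : (∑ j ∈ Finset.range (D + 1),
          (Nat.choose (M - D - 1 + j) j : ℝ) * (1 - q) ^ j) ^ 2 ≤ x ^ (2 * D) := by
        rw [mul_comm 2 D, pow_mul]
        exact pow_le_pow_left₀ h3 h2 2
      calc (59 / 100 : ℝ) ^ (2 * D) ≤ r * q ^ ((N - (t - 1)) * (2 * D)) *
            (∑ j ∈ Finset.range (D + 1),
              (Nat.choose (M - D - 1 + j) j : ℝ) * (1 - q) ^ j) ^ 2 := h5.trans h1
        _ ≤ r * (exp 1 / t) ^ (2 * D) * x ^ (2 * D) := by gcongr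
        _ = r * ((exp 1 / t) * x) ^ (2 * D) := by rw [mul_pow]; ring
    have h6 : (exp 1 / t) * x ≤ 59 / 200 := by
      have h11 := exp_two
      have hMcases : (M : ℝ) * (1 - q) / D ≤ t / 26 := by
        rw [div_le_iff₀ (by linarith)]
        rcases le_total m (ρ * (D * (2 * N + t ^ 2))) with hc | hc
        · have hMe : (M : ℝ) = ρ * (D * (2 * N + t ^ 2)) := by
            rw [hM, max_eq_right hc]; push_cast; ring
          rw [hMe]
          have h12 : ρ * (2 * N + (t : ℝ) ^ 2) * (log t / N) ≤ t / 26 := by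
            have h13 : ρ * (2 * N + (t : ℝ) ^ 2) * (log t / N) =
                2 * (ρ * log t) + t * (ρ * (t * log t) / N) := by
              field_simp
            rw [h13]
            have h14 : ρ * (t * log t) / N ≤ 1 / 80 := by
              rw [div_le_iff₀ hN0]
              linarith
            have h15 : 2 * (ρ * log t) ≤ 20 / 3500 * t := by
              have h16 : ρ * log t ≤ μ * (10 * Λ) :=
                mul_le_mul hμρ (by linarith) (by linarith) hμ0.le
              linarith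
            nlinarith
          calc ρ * (D * (2 * N + (t : ℝ) ^ 2)) * (1 - q)
              ≤ ρ * (D * (2 * N + (t : ℝ) ^ 2)) * (log t / N) := by gcongr
            _ = D * (ρ * (2 * N + (t : ℝ) ^ 2) * (log t / N)) := by ring
            _ ≤ D * (t / 26) := by gcongr
            _ = t / 26 * D := by ring
        · have hMe : (M : ℝ) = m := by
            rw [hM, max_eq_left hc]
          rw [hMe]
          have h12 : (m : ℝ) ≤ μ * n := by
            rw [div_le_iff₀ hn0] at hμm
            exact hμm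
          calc (m : ℝ) * (1 - q) ≤ (μ * (10 * (D * N))) * (log t / N) := by
                refine mul_le_mul (h12.trans ?_) h1q (by linarith) (by positivity)
                exact mul_le_mul_of_nonneg_left hDN hμ0.le
            _ = 10 * (μ * log t) * D := by field_simp
            _ ≤ t / 26 * D := by
                have h16 : μ * log t ≤ μ * (10 * Λ) :=
                  mul_le_mul_of_nonneg_left (by linarith) hμ0.le
                have h17 : 10 * (μ * log t) ≤ t / 26 := by linarith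
                gcongr
      calc (exp 1 / t) * x = exp 1 * exp 1 * (M * (1 - q) / D) / t := by
            rw [hx]; ring
        _ ≤ 7.4 * (t / 26) / t := by
            gcongr
        _ ≤ 59 / 200 := by
            rw [div_le_iff₀ ht0]
            linarith
    have h7 : (2 : ℝ) ^ (2 * D) ≤ r := by
      have h8 : (exp 1 / t * x) ^ (2 * D) ≤ (59 / 200 : ℝ) ^ (2 * D) :=
        pow_le_pow_left₀ (by positivity) h6 _
      have h9' : (59 / 100 : ℝ) ^ (2 * D) ≤ r * (59 / 200 : ℝ) ^ (2 * D) :=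
        h4.trans (mul_le_mul_of_nonneg_left h8 (by linarith))
      have h10 : (59 / 100 : ℝ) ^ (2 * D) = 2 ^ (2 * D) * (59 / 200 : ℝ) ^ (2 * D) := by
        rw [← mul_pow]
        norm_num
      rw [h10] at h9'
      exact le_of_mul_le_mul_right h9' (by positivity)
    have h8 : (n : ℝ) / s ≤ 2 * D := by
      rw [div_le_iff₀ hs0]
      exact hDr
    calc exp (log 2 * (n / (4050 * exp 9 * (ρ * μ * Λ ^ 2)))) ≤ exp (log 2 * (2 * D)) := by
          rw [exp_le_exp]
          exact mul_le_mul_of_nonneg_left (hns.trans h8) hln2.le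
      _ = 2 ^ (2 * D) := by
        rw [exp_mul, exp_log (by norm_num), ← rpow_natCast]
        push_cast
        rfl
      _ ≤ r := h7
      _ ≤ 2 * r := by linarith

/-- RO5 -/
theorem RO_numerics : ∃ c : ℝ, 0 < c ∧ ∀ n m ρ r : ℕ, 1 ≤ n → 1 ≤ ρ → 1 ≤ r →
    (∀ D N a : ℕ, 1 ≤ D → a < N → D * (4 * N + 2 * a + 1) ≤ n → ∀ q : ℝ, 0 < q → q < 1 →
      q ^ (a * (2 * D)) * (1 - (1 - q ^ N) ^ (a + 1)) ^ (2 * D) ≤
        r * q ^ ((N - a) * (2 * D)) *
          (∑ j ∈ Finset.range (D + 1),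
            (Nat.choose (max m (ρ * (D * (2 * N + (a + 1) ^ 2))) - D - 1 + j) j : ℝ) *
              (1 - q) ^ j) ^ 2) →
    Real.exp (c * n / (ρ * max ((m : ℝ) / n) ρ * (1 + Real.log (max ((m : ℝ) / n) ρ)) ^ 2)) ≤
      2 * r := by
  refine ⟨log 2 / (4050 * exp 9), div_pos (log_pos (by norm_num)) (by positivity), ?_⟩
  intro n m ρ r hn hρ hr H
  exact numerics hn hρ hr H

end Pool.Agent.Helper90.SD.RO
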