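import Pool.Agent.Helper90.SD.U

/-!
Project SDET, row M3: the generating function of the number of gaps.
-/

namespace Pool.Agent.Helper90.SD

open Finset
open scoped ENNReal

variable {m k : ℕ}

lemma rho_eq (f : Fin (k + 1) ↪o Fin m) : rho f + k = f (Fin.last k) := by
  classical
  unfold rho
  have e1 : ({i : Fin m | i ∉ Set.range f ∧ ∃ s, i < f s} : Finset (Fin m)) =
      Finset.Iio (f (Fin.last k)) \ (Finset.univ.image fun s : Fin k => f s.castSucc) := by
    ext i
    simp only [Finset.mem_filter, Finset.mem_univ, true_and, Finset.mem_sdiff, Finset.mem_Iio,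
      Finset.mem_image, Set.mem_range, not_exists]
    constructor
    · rintro ⟨h1, s, h2⟩
      exact ⟨lt_of_lt_of_le h2 (f.monotone (Fin.le_last s)), fun t => h1 t.castSucc⟩
    · rintro ⟨h1, h2⟩
      refine ⟨?_, _, h1⟩
      intro s
      induction s using Fin.lastCases with
      | last => exact fun h => absurd h1 (by rw [h]; exact lt_irrefl _)
      | cast t => exact h2 t
  rw [e1, Finset.card_sdiff_of_subset]
  · rw [Finset.card_image_of_injective, Finset.card_univ, Fintype.card_fin, Fin.card_Iio]
    · have : k ≤ (f (Fin.last k) : ℕ) := by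
        have h : ∀ n (hn : n < k + 1), n ≤ ((f ⟨n, hn⟩ : Fin m) : ℕ) := by
          intro n
          induction n with
          | zero => intro _; exact Nat.zero_le _
          | succ n ih =>
            intro hn
            have h1 := ih (by omega)
            have h2 : f ⟨n, by omega⟩ < f ⟨n + 1, hn⟩ := f.strictMono (by simp [Fin.lt_def])
            have h3 : ((f ⟨n, by omega⟩ : Fin m) : ℕ) < f ⟨n + 1, hn⟩ := h2
            omega
        exact h k (Nat.lt_succ_self k)
      omega
    · intro a b hab
      exact Fin.castSucc_injective _ (f.injective hab)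
  · intro i hi
    rw [Finset.mem_image] at hi
    obtain ⟨s, -, rfl⟩ := hi
    rw [Finset.mem_Iio]
    exact f.strictMono (Fin.castSucc_lt_last s)

lemma card_rho_eq_le (j : ℕ) :
    #{f : Fin (k + 1) ↪o Fin m | rho f = j} ≤ (k + j).choose j := by
  classical
  have h2 : #((Finset.range (k + j)).powersetCard k) = (k + j).choose j := by
    rw [Finset.card_powersetCard, Finset.card_range, Nat.choose_symm_add]
  rw [← h2]
  refine Finset.card_le_card_of_injOn
    (fun f => Finset.univ.image fun s : Fin k => ((f s.castSucc : Fin m) : ℕ)) ?_ ?_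
  · intro f hf
    simp only [Finset.coe_filter, Finset.mem_univ, true_and, Set.mem_ofPred_eq] at hf
    have h3 := rho_eq f
    rw [Finset.mem_coe, Finset.mem_powersetCard]
    constructor
    · intro x hx
      rw [Finset.mem_image] at hx
      obtain ⟨s, -, rfl⟩ := hx
      rw [Finset.mem_range]
      have h4 : f s.castSucc < f (Fin.last k) := f.strictMono (Fin.castSucc_lt_last s)
      have h5 : ((f s.castSucc : Fin m) : ℕ) < f (Fin.last k) := h4
      omega
    · rw [Finset.card_image_of_injective, Finset.card_univ, Fintype.card_fin]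
      intro a b hab
      exact Fin.castSucc_injective _ (f.injective (Fin.ext hab))
  · intro f hf g hg hfg
    simp only [Finset.coe_filter, Finset.mem_univ, true_and, Set.mem_ofPred_eq] at hf hg
    have hlast : f (Fin.last k) = g (Fin.last k) := by
      have h3 := rho_eq f
      have h4 := rho_eq g
      ext; omega
    have hf' : StrictMono fun s : Fin k => ((f s.castSucc : Fin m) : ℕ) := fun a b hab =>
      f.strictMono (Fin.castSucc_lt_castSucc_iff.2 hab)
    have hg' : StrictMono fun s : Fin k => ((g s.castSucc : Fin m) : ℕ) := fun a b hab =>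
      g.strictMono (Fin.castSucc_lt_castSucc_iff.2 hab)
    have hr : Set.range (fun s : Fin k => ((f s.castSucc : Fin m) : ℕ)) =
        Set.range (fun s : Fin k => ((g s.castSucc : Fin m) : ℕ)) := by
      have h := congrArg (fun S : Finset ℕ => (S : Set ℕ)) hfg
      simpa using h
    have heq := (StrictMono.range_inj hf' hg').1 hr
    ext s
    induction s using Fin.lastCases with
    | last => rw [hlast]
    | cast t => exact congrFun heq t

lemma rho_le (f : Fin (k + 1) ↪o Fin m) : rho f ≤ m - (k + 1) := by
  have h := rho_eq f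
  have := (f (Fin.last k)).isLt
  omega

/-- M3 for `k + 1` rows, in any ordered semiring; here `ENNReal` -/
theorem sum_pow_rho_le (θ : ℝ≥0∞) :
    ∑ f : Fin (k + 1) ↪o Fin m, θ ^ rho f ≤
      ∑ j ∈ Finset.range (m - (k + 1) + 1), (((k + j).choose j : ℕ) : ℝ≥0∞) * θ ^ j := by
  classical
  have h1 : ∑ f : Fin (k + 1) ↪o Fin m, θ ^ rho f =
      ∑ j ∈ Finset.range (m - (k + 1) + 1), ∑ f : Fin (k + 1) ↪o Fin m with rho f = j, θ ^ rho f :=
    (Finset.sum_fiberwise_of_maps_to (fun f _ => by
      rw [Finset.mem_range]; exact Nat.lt_succ_of_le (rho_le f)) _).symm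
  rw [h1]
  refine Finset.sum_le_sum fun j _ => ?_
  have h2 : ∑ f : Fin (k + 1) ↪o Fin m with rho f = j, θ ^ rho f =
      (#{f : Fin (k + 1) ↪o Fin m | rho f = j} : ℝ≥0∞) * θ ^ j := by
    rw [Finset.sum_congr rfl (g := fun _ => θ ^ j) (fun f hf => by
      rw [(Finset.mem_filter.1 hf).2]), Finset.sum_const, nsmul_eq_mul]
  rw [h2]
  gcongr
  exact card_rho_eq_le j

/-- side (U) for the generic matrix, final form (`k` rows, `1 ≤ k`) -/
theorem sideU_generic' {K : Type*} [Field K] {τ : Type*} [Fintype τ] [DecidableEq τ]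
    {c : Fin m × Fin m → τ} (hc : Function.Injective c) (hk : 1 ≤ k) (Q : ℝ≥0∞) (hQ : Q < 1) :
    (1 - Q) ^ (Fintype.card τ + 1) *
      ∑' l : ℕ, Q ^ l * (Module.finrank K (Submodule.span K (productSetLe K k c l)) : ℝ≥0∞) ≤
      (∑ j ∈ Finset.range (m - k + 1), (((k - 1 + j).choose j : ℕ) : ℝ≥0∞) * (1 - Q) ^ j) ^ 2 := by
  obtain ⟨k, rfl⟩ := Nat.exists_eq_add_of_le' hk
  refine (sideU_generic (K := K) (k := k + 1) hc Q hQ).trans ?_
  have h := sum_pow_rho_le (m := m) (k := k) (1 - Q)
  simp only [Nat.add_sub_cancel]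
  gcongr

end Pool.Agent.Helper90.SD
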