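import Pool.Agent.SDet.Defs
import Pool.Agent.Helper90.SD.Cnt

/-!
Project SDET: rows U1, U3a, U3b in the exact form of the interface.
-/

open MvPolynomial Finset
open scoped BigOperators ENNReal

namespace Pool.Agent.Helper90.SD

variable {K : Type} [Field K]

lemma sdl_rho_eq {m k : ℕ} (f : Fin k ↪o Fin m) : Pool.SDL.rho f = rho f := by
  classical
  unfold Pool.SDL.rho rho
  rw [Nat.card_eq_fintype_card, Fintype.card_subtype]

/-- U1 -/
theorem U1_generic {σ : Type} [Fintype σ] {m k l : ℕ} :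
    Module.finrank K (Submodule.span K {f : MvPolynomial (σ ⊕ (Fin m × Fin m)) K |
      ∃ (μ : (σ ⊕ (Fin m × Fin m)) →₀ ℕ) (r c : Fin k → Fin m),
        μ.degree ≤ l ∧ StrictMono r ∧ StrictMono c ∧
        f = monomial μ 1 * ((Matrix.of fun i j => (X (Sum.inr (i, j)) :
          MvPolynomial (σ ⊕ (Fin m × Fin m)) K)).submatrix r c).det}) ≤
      ∑ f : Fin k ↪o Fin m, ∑ g : Fin k ↪o Fin m,
        Nat.multichoose (Fintype.card σ + m * m + 1 - Pool.SDL.rho f - Pool.SDL.rho g) l := by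
  classical
  have hset : {f : MvPolynomial (σ ⊕ (Fin m × Fin m)) K |
      ∃ (μ : (σ ⊕ (Fin m × Fin m)) →₀ ℕ) (r c : Fin k → Fin m),
        μ.degree ≤ l ∧ StrictMono r ∧ StrictMono c ∧
        f = monomial μ 1 * ((Matrix.of fun i j => (X (Sum.inr (i, j)) :
          MvPolynomial (σ ⊕ (Fin m × Fin m)) K)).submatrix r c).det} ⊆
      productSetLe K k (Sum.inr : Fin m × Fin m → σ ⊕ (Fin m × Fin m)) l := by
    rintro p ⟨μ, r, c, hμ, hr, hc, rfl⟩
    exact ⟨μ, OrderEmbedding.ofStrictMono r hr, OrderEmbedding.ofStrictMono c hc, hμ, rfl⟩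
  have hcard : Fintype.card (σ ⊕ (Fin m × Fin m)) = Fintype.card σ + m * m := by
    simp
  have h1 := finrank_span_productSetLe_le (K := K) (k := k) (τ := σ ⊕ (Fin m × Fin m))
    (c := Sum.inr) Sum.inr_injective l
  have : FiniteDimensional K (Submodule.span K
      (productSetLe K k (Sum.inr : Fin m × Fin m → σ ⊕ (Fin m × Fin m)) l)) :=
    finite_span_productSetLe Sum.inr_injective l
  refine (Submodule.finrank_mono (Submodule.span_mono hset)).trans (h1.trans (le_of_eq ?_))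
  rw [Finset.sum_comm]
  refine Finset.sum_congr rfl fun f _ => ?_
  rw [Finset.sum_comm]
  refine Finset.sum_congr rfl fun g _ => ?_
  have hle : rho f + rho g ≤ Fintype.card σ + m * m := by
    rw [← hcard]
    exact rho_add_rho_le_card (τ := σ ⊕ (Fin m × Fin m)) (c := Sum.inr) Sum.inr_injective f g
  rw [hcard, Nat.sum_range_multichoose, Nat.multichoose_eq, sdl_rho_eq, sdl_rho_eq,
    show Fintype.card σ + m * m + 1 - rho f - rho g + l - 1 =
      l + (Fintype.card σ + m * m - (rho f + rho g)) by omega, Nat.choose_symm_add]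

/-- U3a -/
theorem U3_series {σ : Type} [Fintype σ] {m k : ℕ} (Q : ℝ≥0∞) (hQ : Q < 1) :
    (1 - Q) ^ (Fintype.card σ + m * m + 1) * ∑' l, Q ^ l *
      ((∑ f : Fin k ↪o Fin m, ∑ g : Fin k ↪o Fin m,
        Nat.multichoose (Fintype.card σ + m * m + 1 - Pool.SDL.rho f - Pool.SDL.rho g) l : ℕ) :
          ℝ≥0∞) ≤
    (∑ f : Fin k ↪o Fin m, (1 - Q) ^ Pool.SDL.rho f) ^ 2 := by
  classical
  have h10 : (1 : ℝ≥0∞) - Q ≠ 0 := (tsub_pos_of_lt hQ).ne'
  have h1t : (1 : ℝ≥0∞) - Q ≠ ∞ := (tsub_le_self.trans_lt ENNReal.one_lt_top).ne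
  have hcard : Fintype.card (σ ⊕ (Fin m × Fin m)) = Fintype.card σ + m * m := by
    simp
  simp_rw [sdl_rho_eq]
  have hser : ∑' l, Q ^ l *
      ((∑ f : Fin k ↪o Fin m, ∑ g : Fin k ↪o Fin m,
        Nat.multichoose (Fintype.card σ + m * m + 1 - rho f - rho g) l : ℕ) : ℝ≥0∞) =
      ∑ f : Fin k ↪o Fin m, ∑ g : Fin k ↪o Fin m,
        ((1 - Q) ^ (Fintype.card σ + m * m + 1 - rho f - rho g))⁻¹ := by
    push_cast
    simp_rw [Finset.mul_sum]
    rw [Summable.tsum_finsetSum (fun _ _ => ENNReal.summable)]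
    refine Finset.sum_congr rfl fun f _ => ?_
    rw [Summable.tsum_finsetSum (fun _ _ => ENNReal.summable)]
    refine Finset.sum_congr rfl fun g _ => ?_
    rw [tsum_multichoose _ Q hQ]
  rw [hser, sq, Finset.sum_mul_sum, Finset.mul_sum]
  refine le_of_eq (Finset.sum_congr rfl fun f _ => ?_)
  rw [Finset.mul_sum]
  refine Finset.sum_congr rfl fun g _ => ?_
  have hle : rho f + rho g ≤ Fintype.card σ + m * m := by
    rw [← hcard]
    exact rho_add_rho_le_card (τ := σ ⊕ (Fin m × Fin m)) (c := Sum.inr) Sum.inr_injective f g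
  have e : Fintype.card σ + m * m + 1 =
      (rho f + rho g) + (Fintype.card σ + m * m + 1 - rho f - rho g) := by omega
  conv_lhs => rw [e]
  rw [show (rho f + rho g) + (Fintype.card σ + m * m + 1 - rho f - rho g) - rho f - rho g =
    Fintype.card σ + m * m + 1 - rho f - rho g by omega, pow_add, mul_assoc,
    ENNReal.mul_inv_cancel (pow_ne_zero _ h10) (ENNReal.pow_ne_top h1t), mul_one, pow_add]

/-- U3b -/
theorem U3_rho {m k : ℕ} (hk : 1 ≤ k) (Θ : ℝ≥0∞) :
    ∑ f : Fin k ↪o Fin m, Θ ^ Pool.SDL.rho f ≤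
      ∑ j ∈ Finset.range (m - k + 1), (Nat.choose (k - 1 + j) j : ℝ≥0∞) * Θ ^ j := by
  obtain ⟨k, rfl⟩ := Nat.exists_eq_add_of_le' hk
  simp_rw [sdl_rho_eq]
  exact sum_pow_rho_le Θ

end Pool.Agent.Helper90.SD
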