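import Pool.Agent.Helper90.SD.RO5

/-!
Numerical part of the project DIAG (diagonal entries as variables).
-/

namespace Pool.SDL

open Real Pool.SDN Pool.Agent.Helper90.SD.RO

theorem exp_sixteen : (7000000 : ℝ) ≤ exp 16 := by
  have h1 : (2.7 : ℝ) ≤ exp 1 := by
    have := exp_one_gt_d9
    linarith
  have h2 : exp 16 = exp 1 ^ 16 := by
    rw [← exp_nat_mul]
    norm_num
  rw [h2]
  calc (7000000 : ℝ) ≤ 2.7 ^ 16 := by norm_num
    _ ≤ exp 1 ^ 16 := pow_le_pow_left₀ (by norm_num) h1 16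

theorem diag_numerics_aux {n r : ℕ} {μ : ℝ} (hn : 1 ≤ n) (hr : 1 ≤ r) (hμ1 : 1 ≤ μ)
    (H : ∀ D N a : ℕ, 1 ≤ D → a < N → D * (N + a + 1) ≤ n → ∀ q : ℝ, 0 < q → q < 1 →
      q ^ (a * D) * (1 - (1 - q ^ N) ^ (a + 1)) ^ D ≤
        r * q ^ ((N - a) * D) *
          (∑ j ∈ Finset.range (D + 1), (Nat.choose (⌊μ * n⌋₊ - D - 1 + j) j : ℝ) *
            (1 - q) ^ j) ^ 2) :
    exp (log 2 / (64 * exp 16) * n / (μ ^ 2 * (1 + log μ) ^ 3)) ≤ 2 * r := by
  have hn' : (1 : ℝ) ≤ n := by exact_mod_cast hn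
  have hn0 : (0 : ℝ) < n := by linarith
  have hr' : (1 : ℝ) ≤ r := by exact_mod_cast hr
  have hμ0 : 0 < μ := by linarith
  set Λ : ℝ := 1 + log μ with hΛ
  have hΛ1 : 1 ≤ Λ := by
    have := log_nonneg hμ1
    linarith
  have hΛ0 : 0 < Λ := by linarith
  have h16 := exp_sixteen
  have h160 := exp_pos 16
  set p : ℝ := μ * Λ with hp
  have hp1 : 1 ≤ p := by rw [hp]; nlinarith
  have hp0 : 0 < p := by linarith
  have hpp : 1 ≤ p ^ 2 := by nlinarith
  set T : ℝ := exp 16 / 2 * p ^ 2 with hT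
  have hT1 : 3500000 * p ^ 2 ≤ T := by
    rw [hT]
    nlinarith
  set t : ℕ := ⌈T⌉₊ with ht
  have htT : T ≤ t := Nat.le_ceil T
  have htT' : (t : ℝ) ≤ exp 16 * p ^ 2 := by
    have h1 : (t : ℝ) < T + 1 := Nat.ceil_lt_add_one (by linarith)
    have h2 : exp 16 * p ^ 2 = 2 * T := by rw [hT]; ring
    rw [h2]
    linarith
  have hpt : 3500000 * p ^ 2 ≤ t := hT1.trans htT
  have ht3' : (3500000 : ℝ) ≤ t := by linarith
  have ht3 : 3 ≤ t := by
    have : (3 : ℝ) ≤ t := by linarith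
    exact_mod_cast this
  have ht0 : (0 : ℝ) < t := by linarith
  have hlog : log t ≤ 16 * Λ := by
    have h1 : log t ≤ log (exp 16 * p ^ 2) := log_le_log ht0 htT'
    rw [log_mul (exp_pos 16).ne' (pow_pos hp0 2).ne', log_exp, log_pow, hp,
      log_mul hμ0.ne' hΛ0.ne'] at h1
    have h2 : log Λ ≤ Λ - 1 := log_le_sub_one_of_pos hΛ0
    have h3 : log μ = Λ - 1 := by rw [hΛ]; ring
    push_cast at h1
    linarith
  have he3 : exp 1 < 3 := lt_trans exp_one_lt_d9 (by norm_num)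
  have hlog8 : 8 ≤ log t := by
    rw [le_log_iff_exp_le ht0]
    have h1 : exp 8 = exp 1 ^ 8 := by
      rw [← exp_nat_mul]
      norm_num
    have h2 : exp 1 ^ 8 ≤ 3 ^ 8 := pow_le_pow_left₀ (exp_pos 1).le he3.le 8
    rw [h1]
    refine h2.trans ?_
    linarith
  set N : ℕ := ⌈(t : ℝ) * log t⌉₊ with hN
  have hN1 : (t : ℝ) * log t ≤ N := Nat.le_ceil _
  have htl : (1 : ℝ) ≤ t * log t := by nlinarith
  have hN2 : (N : ℝ) ≤ 2 * (t * log t) := by
    have h1 : (N : ℝ) < t * log t + 1 := Nat.ceil_lt_add_one (by linarith)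
    linarith
  obtain ⟨hq0, hq1, hqN, hqa, h1q, h1q', htN⟩ := q_bounds ht3 hN1 rfl
  set q : ℝ := exp (-(log t / N)) with hq
  have hN0 : (0 : ℝ) < N := by linarith
  have htN' : (t : ℝ) ≤ N := by exact_mod_cast htN
  set s : ℕ := N + (t - 1) + 1 with hs
  have hse : (s : ℝ) = N + t := by
    have : s = N + t := by omega
    rw [this]; push_cast; ring
  have hs1 : (s : ℝ) ≤ 2 * N := by
    rw [hse]
    linarith
  have hs2 : (s : ℝ) ≤ 64 * exp 16 * (μ ^ 2 * Λ ^ 3) := by
    calc (s : ℝ) ≤ 4 * (t * log t) := by linarith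
      _ ≤ 4 * ((exp 16 * p ^ 2) * (16 * Λ)) := by
        have := mul_le_mul htT' hlog (by linarith) (by positivity)
        linarith
      _ = 64 * exp 16 * (μ ^ 2 * Λ ^ 3) := by rw [hp]; ring
  have hs0 : (0 : ℝ) < s := by
    have : 0 < s := by omega
    exact_mod_cast this
  have hE : log 2 / (64 * exp 16) * n / (μ ^ 2 * Λ ^ 3) =
      log 2 * (n / (64 * exp 16 * (μ ^ 2 * Λ ^ 3))) := by
    field_simp
  have hln2 : 0 < log 2 := log_pos (by norm_num)
  have hns : (n : ℝ) / (64 * exp 16 * (μ ^ 2 * Λ ^ 3)) ≤ n / s :=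
    div_le_div_of_nonneg_left hn0.le hs0 hs2
  rw [hE]
  set D : ℕ := n / s with hD
  rcases Nat.eq_zero_or_pos D with hD0 | hD0
  · have h1 : n < s := by
      have h2 := Nat.lt_div_mul_add (a := n) (b := s) (by omega)
      rw [← hD, hD0] at h2
      omega
    have h2 : (n : ℝ) / s ≤ 1 := by
      rw [div_le_one hs0]
      exact_mod_cast h1.le
    calc exp (log 2 * (n / (64 * exp 16 * (μ ^ 2 * Λ ^ 3)))) ≤ exp (log 2 * 1) := by
          rw [exp_le_exp]
          exact mul_le_mul_of_nonneg_left (hns.trans h2) hln2.le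
      _ = 2 := by rw [mul_one, exp_log (by norm_num)]
      _ ≤ 2 * r := by linarith
  · have hDn : D * s ≤ n := Nat.div_mul_le_self n s
    have hDn' : n < (D + 1) * s := by
      have h2 := Nat.lt_div_mul_add (a := n) (b := s) (by omega)
      rw [← hD] at h2
      linarith [add_mul D 1 s]
    have hD1 : (1 : ℝ) ≤ D := by exact_mod_cast hD0
    have hDr : (n : ℝ) ≤ 2 * D * s := by
      have h1 : (n : ℝ) < (D + 1) * s := by exact_mod_cast hDn'
      nlinarith
    have hDN : (n : ℝ) ≤ 4 * (D * N) := by nlinarith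
    have hDN' : (D : ℝ) * N ≤ n := by
      have h1 : D * N ≤ D * s := Nat.mul_le_mul_left D (by omega)
      exact_mod_cast h1.trans hDn
    have hta : t - 1 + 1 = t := by omega
    have h1 := H D N (t - 1) hD0 (by omega) hDn q hq0 hq1
    rw [hta] at h1
    set M : ℕ := ⌊μ * n⌋₊ with hM
    have hM1 : (M : ℝ) ≤ μ * n := Nat.floor_le (by positivity)
    have hMn : n ≤ M := by
      refine Nat.le_floor ?_
      nlinarith
    have hMn' : (n : ℝ) ≤ M := by exact_mod_cast hMn
    have hMD : D < M := by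
      have h3 : D * 2 ≤ D * s := Nat.mul_le_mul_left D (by omega)
      omega
    have hMq : (D : ℝ) ≤ M * (1 - q) := by
      calc (D : ℝ) ≤ D * N * (log t / N / 2) := by
            have : (D : ℝ) * N * (log t / N / 2) = D * (log t / 2) := by field_simp
            rw [this]
            nlinarith
        _ ≤ M * (1 - q) := mul_le_mul (hDN'.trans hMn') h1q' (by positivity) (by positivity)
    have h2 := sum_choose_le hD0 hMD (x := 1 - q) (by linarith) hMq
    have h3 : 0 ≤ ∑ j ∈ Finset.range (D + 1), (Nat.choose (M - D - 1 + j) j : ℝ) * (1 - q) ^ j :=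
      Finset.sum_nonneg fun j _ => mul_nonneg (by positivity) (pow_nonneg (by linarith) _)
    set x : ℝ := exp 1 * (M * (1 - q)) / D with hx
    have hx0 : 0 ≤ x := by
      have : 0 ≤ 1 - q := by linarith
      positivity
    have h4 : (1 / 10 : ℝ) ^ D ≤ r * ((exp 1 / t) * x ^ 2) ^ D := by
      have hqt : exp (-1) ≤ q ^ (t - 1) := by
        have h31 : ((t - 1 : ℕ) : ℝ) ≤ t := by
          have : t - 1 ≤ t := by omega
          exact_mod_cast this
        have h32 : ((t - 1 : ℕ) : ℝ) * (log t / N) ≤ 1 := by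
          calc ((t - 1 : ℕ) : ℝ) * (log t / N) ≤ t * (log t / N) := by gcongr
            _ = t * log t / N := by ring
            _ ≤ 1 := by
              rw [div_le_iff₀ hN0]
              linarith
        have h33 : q ^ (t - 1) = exp (-(((t - 1 : ℕ) : ℝ) * (log t / N))) := by
          rw [hq, ← exp_nat_mul]
          congr 1
          ring
        rw [h33, exp_le_exp]
        linarith
      have he1 : (1 / 3 : ℝ) ≤ exp (-1) := by
        rw [exp_neg, one_div]
        exact inv_anti₀ (exp_pos 1) he3.le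
      have h5 : (1 / 10 : ℝ) ^ D ≤ q ^ ((t - 1) * D) * (1 - (1 - q ^ N) ^ t) ^ D := by
        rw [hqN, pow_mul q (t - 1) D, ← mul_pow]
        have h35 := one_sub_pow_ge (t := t) (by omega)
        refine pow_le_pow_left₀ (by norm_num) ?_ _
        nlinarith
      have h6 : q ^ ((N - (t - 1)) * D) ≤ (exp 1 / t) ^ D := by
        rw [pow_mul]
        exact pow_le_pow_left₀ (pow_pos hq0 _).le hqa _
      have h7 : (∑ j ∈ Finset.range (D + 1),
          (Nat.choose (M - D - 1 + j) j : ℝ) * (1 - q) ^ j) ^ 2 ≤ (x ^ 2) ^ D := by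
        rw [← pow_mul, mul_comm 2 D, pow_mul]
        exact pow_le_pow_left₀ h3 h2 2
      calc (1 / 10 : ℝ) ^ D ≤ r * q ^ ((N - (t - 1)) * D) *
            (∑ j ∈ Finset.range (D + 1),
              (Nat.choose (M - D - 1 + j) j : ℝ) * (1 - q) ^ j) ^ 2 := h5.trans h1
        _ ≤ r * (exp 1 / t) ^ D * (x ^ 2) ^ D := by gcongr
        _ = r * ((exp 1 / t) * x ^ 2) ^ D := by rw [mul_pow (exp 1 / t) (x ^ 2) D]; ring
    have h6 : (exp 1 / t) * x ^ 2 ≤ 1 / 40 := by
      have hMcases : (M : ℝ) * (1 - q) / D ≤ 64 * p := by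
        rw [div_le_iff₀ (by linarith)]
        calc (M : ℝ) * (1 - q) ≤ (μ * (4 * (D * N))) * (log t / N) := by
              refine mul_le_mul (hM1.trans ?_) h1q (by linarith) (by positivity)
              exact mul_le_mul_of_nonneg_left hDN hμ0.le
          _ = 4 * (μ * log t) * D := by field_simp
          _ ≤ 64 * p * D := by
              have h17 : μ * log t ≤ μ * (16 * Λ) := mul_le_mul_of_nonneg_left hlog hμ0.le
              have h18 : 4 * (μ * log t) ≤ 64 * p := by rw [hp]; linarith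
              gcongr
      have hxe : x = exp 1 * (M * (1 - q) / D) := by rw [hx]; ring
      have hy0 : 0 ≤ (M : ℝ) * (1 - q) / D := by
        have : 0 ≤ 1 - q := by linarith
        positivity
      have he : exp 1 ≤ 2.7182818286 := exp_one_lt_d9.le
      have he0 := exp_pos 1
      have hcube : exp 1 * exp 1 ^ 2 ≤ 20.1 := by
        have h21 : exp 1 ^ 2 ≤ 2.7182818286 ^ 2 := pow_le_pow_left₀ he0.le he 2
        calc exp 1 * exp 1 ^ 2 ≤ 2.7182818286 * 2.7182818286 ^ 2 :=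
              mul_le_mul he h21 (by positivity) (by norm_num)
          _ ≤ 20.1 := by norm_num
      rw [div_mul_eq_mul_div, div_le_iff₀ ht0]
      calc exp 1 * x ^ 2 = (exp 1 * exp 1 ^ 2) * (M * (1 - q) / D) ^ 2 := by rw [hxe]; ring
        _ ≤ 20.1 * (64 * p) ^ 2 := by
            refine mul_le_mul hcube ?_ (by positivity) (by norm_num)
            exact pow_le_pow_left₀ hy0 hMcases 2
        _ = 20.1 * 4096 * p ^ 2 := by ring
        _ ≤ 1 / 40 * t := by nlinarith
    have h7 : (4 : ℝ) ^ D ≤ r := by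
      have hx2 : 0 ≤ exp 1 / t * x ^ 2 := by positivity
      have h8 : (exp 1 / t * x ^ 2) ^ D ≤ (1 / 40 : ℝ) ^ D := pow_le_pow_left₀ hx2 h6 _
      have h9' : (1 / 10 : ℝ) ^ D ≤ r * (1 / 40 : ℝ) ^ D :=
        h4.trans (mul_le_mul_of_nonneg_left h8 (by linarith))
      have h10 : (1 / 10 : ℝ) ^ D = 4 ^ D * (1 / 40 : ℝ) ^ D := by
        rw [← mul_pow]
        norm_num
      rw [h10] at h9'
      exact le_of_mul_le_mul_right h9' (by positivity)
    have h8 : (n : ℝ) / s ≤ 2 * D := by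
      rw [div_le_iff₀ hs0]
      exact hDr
    calc exp (log 2 * (n / (64 * exp 16 * (μ ^ 2 * Λ ^ 3)))) ≤ exp (log 2 * (2 * D)) := by
          rw [exp_le_exp]
          exact mul_le_mul_of_nonneg_left (hns.trans h8) hln2.le
      _ = 4 ^ D := by
        have h20 : (2 : ℝ) * D = ((2 * D : ℕ) : ℝ) := by push_cast; ring
        rw [exp_mul, exp_log (by norm_num), h20, rpow_natCast, pow_mul]
        norm_num
      _ ≤ r := h7
      _ ≤ 2 * r := by linarith

theorem diag_numerics : ∃ c : ℝ, 0 < c ∧ ∀ (n r : ℕ) (μ : ℝ), 1 ≤ n → 1 ≤ r → 1 ≤ μ →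
    (∀ D N a : ℕ, 1 ≤ D → a < N → D * (N + a + 1) ≤ n → ∀ q : ℝ, 0 < q → q < 1 →
      q ^ (a * D) * (1 - (1 - q ^ N) ^ (a + 1)) ^ D ≤
        r * q ^ ((N - a) * D) *
          (∑ j ∈ Finset.range (D + 1), (Nat.choose (⌊μ * n⌋₊ - D - 1 + j) j : ℝ) *
            (1 - q) ^ j) ^ 2) →
    Real.exp (c * n / (μ ^ 2 * (1 + Real.log μ) ^ 3)) ≤ 2 * r := by
  refine ⟨log 2 / (64 * exp 16), div_pos (log_pos (by norm_num)) (by positivity), ?_⟩
  intro n r μ hn hr hμ H
  exact diag_numerics_aux hn hr hμ H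

end Pool.SDL
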