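import Pool.Agent.Helper90.SD.UW

/-!
Project SDET, second wave: side (U) for the minors of a matrix with polynomial entries of degree at
most `d`.
-/

namespace Pool.Agent.Helper90.SD

open MvPolynomial Finset Pool.Agent.Helper41.SD
open scoped ENNReal

variable {K : Type*} [Field K] {σ : Type*} [Fintype σ] {m k : ℕ}

/-- the generic minors -/
noncomputable def gm (K : Type*) [Field K] (m k : ℕ) (p : (Fin k ↪o Fin m) × (Fin k ↪o Fin m)) :
    MvPolynomial (Fin m × Fin m) K :=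
  minor K id p.1 p.2

omit [Fintype σ] in
lemma aeval_gm (A : Matrix (Fin m) (Fin m) (MvPolynomial σ K))
    (p : (Fin k ↪o Fin m) × (Fin k ↪o Fin m)) :
    aeval (fun e : Fin m × Fin m => A e.1 e.2) (gm K m k p) = (A.submatrix p.1 p.2).det := by
  rw [gm, minor, AlgHom.map_det]
  congr 1
  ext i j
  simp

theorem straight_gm : Straight (gm K m k) (fun p => forb p.1 p.2) := by
  intro p u
  have h := mem_span_reduced (K := K) (k := k) (m := m) (τ := Fin m × Fin m) (c := id)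
    Function.injective_id u p.1 p.2
  refine Submodule.span_mono ?_ h
  rintro _ ⟨v, f, g, hv, hv2, rfl⟩
  exact ⟨v, (f, g), hv, fun e he => hv2 e ((mem_forb f g e).1 he), rfl⟩

/-- (UW3) side (U) for determinants with entries of degree at most `d` -/
theorem UW3 (A : Matrix (Fin m) (Fin m) (MvPolynomial σ K)) (d : ℕ) (hd : 1 ≤ d)
    (hA : ∀ i j, (A i j).totalDegree ≤ d) (Q : ℝ≥0∞) (hQ : Q < 1) :
    (1 - Q) ^ (Fintype.card σ + 1) * ∑' l, Q ^ l *
      (Module.finrank K (mulSpan (fun _ => 1) l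
        (fun p : (Fin k ↪o Fin m) × (Fin k ↪o Fin m) => (A.submatrix p.1 p.2).det)) : ℝ≥0∞) ≤
      (∑ f : Fin k ↪o Fin m, (1 - Q ^ d) ^ rho f) ^ 2 := by
  refine (UW2' (gm K m k) (fun p => forb p.1 p.2) straight_gm d hd
    (fun e : Fin m × Fin m => A e.1 e.2) (fun e => hA e.1 e.2) _ (aeval_gm A) Q hQ).trans ?_
  rw [Fintype.sum_prod_type, sq, Finset.sum_mul_sum]
  refine Finset.sum_le_sum fun f _ => Finset.sum_le_sum fun g _ => ?_
  rw [← pow_add]
  exact pow_le_pow_right_of_le_one' tsub_le_self (rho_add_rho_le f g)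

theorem UW3' (hk : 1 ≤ k) (A : Matrix (Fin m) (Fin m) (MvPolynomial σ K)) (d : ℕ) (hd : 1 ≤ d)
    (hA : ∀ i j, (A i j).totalDegree ≤ d) (Q : ℝ≥0∞) (hQ : Q < 1) :
    (1 - Q) ^ (Fintype.card σ + 1) * ∑' l, Q ^ l *
      (Module.finrank K (mulSpan (fun _ => 1) l
        (fun p : (Fin k ↪o Fin m) × (Fin k ↪o Fin m) => (A.submatrix p.1 p.2).det)) : ℝ≥0∞) ≤
      (∑ j ∈ Finset.range (m - k + 1),
        (((k - 1 + j).choose j : ℕ) : ℝ≥0∞) * (1 - Q ^ d) ^ j) ^ 2 := by
  obtain ⟨k, rfl⟩ := Nat.exists_eq_add_of_le' hk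
  refine (UW3 A d hd hA Q hQ).trans ?_
  have h := sum_pow_rho_le (m := m) (k := k) (1 - Q ^ d)
  simp only [Nat.add_sub_cancel]
  gcongr

end Pool.Agent.Helper90.SD
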